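import Mathlib

/-!
# The group `SL₂(K)`: elements, relations, Bruhat decomposition
-/

set_option autoImplicit false
set_option linter.all false

namespace Pool.Agent.P8H59.UT

open Matrix

/-- the group `SL₂(K)` -/
abbrev SL2 (K : Type) [Field K] : Type := Matrix.SpecialLinearGroup (Fin 2) K

variable {K : Type} [Field K]

def u (s : K) : SL2 K := ⟨!![1, s; 0, 1], by simp [Matrix.det_fin_two]⟩
def l (s : K) : SL2 K := ⟨!![1, 0; s, 1], by simp [Matrix.det_fin_two]⟩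
def h (a : Kˣ) : SL2 K := ⟨!![(a : K), 0; 0, ((a⁻¹ : Kˣ) : K)], by simp [Matrix.det_fin_two]⟩
def w : SL2 K := ⟨!![0, -1; 1, 0], by simp [Matrix.det_fin_two]⟩

lemma ext2 {g g' : SL2 K} (h00 : g 0 0 = g' 0 0) (h01 : g 0 1 = g' 0 1) (h10 : g 1 0 = g' 1 0)
    (h11 : g 1 1 = g' 1 1) : g = g' := by
  ext i j
  fin_cases i <;> fin_cases j <;> assumption

@[simp] lemma u00 (s : K) : u s 0 0 = 1 := rfl
@[simp] lemma u01 (s : K) : u s 0 1 = s := rfl
@[simp] lemma u10 (s : K) : u s 1 0 = 0 := rfl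
@[simp] lemma u11 (s : K) : u s 1 1 = 1 := rfl
@[simp] lemma l00 (s : K) : l s 0 0 = 1 := rfl
@[simp] lemma l01 (s : K) : l s 0 1 = 0 := rfl
@[simp] lemma l10 (s : K) : l s 1 0 = s := rfl
@[simp] lemma l11 (s : K) : l s 1 1 = 1 := rfl
@[simp] lemma h00 (a : Kˣ) : h a 0 0 = a := rfl
@[simp] lemma h01 (a : Kˣ) : h a 0 1 = 0 := rfl
@[simp] lemma h10 (a : Kˣ) : h a 1 0 = 0 := rfl
@[simp] lemma h11 (a : Kˣ) : h a 1 1 = ((a⁻¹ : Kˣ) : K) := rfl
@[simp] lemma w00 : (w : SL2 K) 0 0 = 0 := rfl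
@[simp] lemma w01 : (w : SL2 K) 0 1 = -1 := rfl
@[simp] lemma w10 : (w : SL2 K) 1 0 = 1 := rfl
@[simp] lemma w11 : (w : SL2 K) 1 1 = 0 := rfl

lemma mul00 (g g' : SL2 K) : (g * g') 0 0 = g 0 0 * g' 0 0 + g 0 1 * g' 1 0 := by
  simp [Matrix.mul_apply, Fin.sum_univ_two]
lemma mul01 (g g' : SL2 K) : (g * g') 0 1 = g 0 0 * g' 0 1 + g 0 1 * g' 1 1 := by
  simp [Matrix.mul_apply, Fin.sum_univ_two]
lemma mul10 (g g' : SL2 K) : (g * g') 1 0 = g 1 0 * g' 0 0 + g 1 1 * g' 1 0 := by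
  simp [Matrix.mul_apply, Fin.sum_univ_two]
lemma mul11 (g g' : SL2 K) : (g * g') 1 1 = g 1 0 * g' 0 1 + g 1 1 * g' 1 1 := by
  simp [Matrix.mul_apply, Fin.sum_univ_two]

lemma det_eq (g : SL2 K) : g 0 0 * g 1 1 - g 0 1 * g 1 0 = 1 := by
  have := g.det_coe
  rwa [Matrix.det_fin_two] at this

lemma u_mul (s t : K) : u s * u t = u (s + t) := by
  apply ext2 <;> simp only [mul00, mul01, mul10, mul11] <;> simp [add_comm]

lemma u_zero : u (0 : K) = 1 := by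
  apply ext2 <;> simp

lemma h_mul (a b : Kˣ) : h a * h b = h (a * b) := by
  apply ext2 <;> simp only [mul00, mul01, mul10, mul11] <;> simp [mul_comm]

lemma h_one : h (1 : Kˣ) = 1 := by
  apply ext2 <;> simp

lemma h_neg_one : h (-1 : Kˣ) = -1 := by
  apply ext2 <;> simp [Matrix.SpecialLinearGroup.coe_neg]

lemma h_u (a : Kˣ) (s : K) : h a * u s = u ((a : K) ^ 2 * s) * h a := by
  apply ext2 <;> simp only [mul00, mul01, mul10, mul11] <;> simp
  field_simp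

lemma w_h (a : Kˣ) : w * h a = h a⁻¹ * w := by
  apply ext2 <;> simp only [mul00, mul01, mul10, mul11] <;> simp

/-- upper triangular elements -/
lemma upper_eq (g : SL2 K) (hg : g 1 0 = 0) (a : Kˣ) (ha : (a : K) = g 0 0) :
    g = u (g 0 0 * g 0 1) * h a := by
  have hd := det_eq g
  rw [hg, mul_zero, sub_zero, ← ha] at hd
  have h11 : g 1 1 = ((a⁻¹ : Kˣ) : K) := by
    rw [Units.val_inv_eq_inv_val]
    exact eq_inv_of_mul_eq_one_right hd
  apply ext2 <;> simp only [mul00, mul01, mul10, mul11] <;> simp [hg, h11, ha]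
  rw [← ha]
  field_simp

/-- elements of the big cell -/
lemma lower_eq (g : SL2 K) (c : Kˣ) (hc : (c : K) = g 1 0) :
    g = u (g 0 0 / g 1 0) * (h c⁻¹ * (w * u (g 1 1 / g 1 0))) := by
  have hd := det_eq g
  have hc0 : g 1 0 ≠ 0 := by rw [← hc]; exact c.ne_zero
  apply ext2 <;> simp only [mul00, mul01, mul10, mul11] <;> simp [hc]
  · field_simp
  · field_simp
    linear_combination -hd
  · field_simp

lemma exists_unit_of_upper (g : SL2 K) (hg : g 1 0 = 0) : ∃ a : Kˣ, (a : K) = g 0 0 := by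
  have hd := det_eq g
  rw [hg, mul_zero, sub_zero] at hd
  exact ⟨Units.mk0 (g 0 0) (left_ne_zero_of_mul_eq_one hd), rfl⟩

end Pool.Agent.P8H59.UT
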