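import Mathlib

/-!
# Blocks, Brauer characters and unitriangular decomposition matrices of finite groups

`ℓ` is a prime and `M` is a maximal ideal, containing `ℓ`, of the ring `AI` of all algebraic integers in
`ℂ`. The residue field `AI ⧸ M` is an algebraic closure of the field with `ℓ` elements.
-/

set_option autoImplicit false

noncomputable section

namespace Pool.Agent.P8H59.UT

open Polynomial

/-- The ring of all algebraic integers. -/
abbrev AI : Type := integralClosure ℤ ℂ

/-- A finite-dimensional irreducible representation of `G` over the field `k`. -/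
structure IrrRep (G : Type) [Group G] (k : Type) [Field k] where
  /-- the vector space -/
  V : Type
  [acg : AddCommGroup V]
  [mod : Module k V]
  [fd : FiniteDimensional k V]
  /-- the representation -/
  ρ : Representation k G V
  irr : ρ.IsIrreducible

attribute [instance] IrrRep.acg IrrRep.mod IrrRep.fd

variable {G : Type} [Group G] [Fintype G]

open Classical in
/-- The sum of the conjugates of `g` acts on the irreducible representation `X` as the scalar `c`, that is
`ω_X(K) = c` for the central character `ω_X` and the class sum `K` of `g`. -/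
def ClassActs {k : Type} [Field k] (X : IrrRep G k) (g : G) (c : k) : Prop :=
  ∑ x ∈ Finset.univ.filter (fun x => IsConj g x), X.ρ x = c • (1 : X.V →ₗ[k] X.V)

/-- The `ℓ`-regular elements: the elements of order prime to `ℓ`. -/
abbrev Reg (ℓ : ℕ) (G : Type) [Group G] : Type := {g : G // ¬ ℓ ∣ orderOf g}

variable (M : Ideal AI) [M.IsMaximal]

instance : Field (AI ⧸ M) := Ideal.Quotient.field M

/-- `φ` is the Brauer character of the irreducible representation `Y` over `AI ⧸ M`: for every
`ℓ`-regular `g` there are roots of unity `ζ_i` of order prime to `ℓ` such that the eigenvalues of `g` on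
`Y` (with multiplicities) are the residue classes of the `ζ_i`, and `φ(g) = ∑ ζ_i`. -/
def IsBrauerChar (ℓ : ℕ) (Y : IrrRep G (AI ⧸ M)) (φ : Reg ℓ G → ℂ) : Prop :=
  ∀ g : Reg ℓ G, ∃ ζ : Fin (Module.finrank (AI ⧸ M) Y.V) → AI,
    (∀ i, ∃ m : ℕ, ¬ ℓ ∣ m ∧ ζ i ^ m = 1) ∧
    (Y.ρ g.1).charpoly = ∏ i, (X - C (Ideal.Quotient.mk M (ζ i))) ∧
    φ g = ∑ i, (ζ i : ℂ)

/-- `Irr(B)` for the `ℓ`-block `B` of the ordinary irreducible representation `X₀`: the characters of the
irreducible representations `X` over `ℂ` with `ω_X ≡ ω_{X₀}` modulo `M` on all class sums. -/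
def IrrB (X₀ : IrrRep G ℂ) : Set (G → ℂ) :=
  {χ | ∃ X : IrrRep G ℂ, χ = X.ρ.character ∧
    ∀ g, ∃ a b : AI, ClassActs X₀ g (a : ℂ) ∧ ClassActs X g (b : ℂ) ∧ a - b ∈ M}

/-- `IBr(B)` for the `ℓ`-block `B` of the ordinary irreducible representation `X₀`: the Brauer characters
of the irreducible representations `Y` over `AI ⧸ M` whose central character is `ω_{X₀}` modulo `M`. -/
def IBrB (ℓ : ℕ) (X₀ : IrrRep G ℂ) : Set (Reg ℓ G → ℂ) :=
  {φ | ∃ Y : IrrRep G (AI ⧸ M), IsBrauerChar M ℓ Y φ ∧
    ∀ g, ∃ a : AI, ClassActs X₀ g (a : ℂ) ∧ ClassActs Y g (Ideal.Quotient.mk M a)}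

/-- The decomposition matrix of the `ℓ`-block `B` of `X₀` is unitriangular: there are distinct
`χ_1, …, χ_n ∈ Irr(B)` and an enumeration `φ_1, …, φ_n` of `IBr(B)` without repetitions such that the
decomposition numbers `d_ij` (defined by `χ_i = ∑_j d_ij φ_j` on the `ℓ`-regular elements) satisfy
`d_ii = 1` and `d_ij = 0` for `j > i`. -/
def Unitriangular (ℓ : ℕ) (X₀ : IrrRep G ℂ) : Prop :=
  ∃ (n : ℕ) (χ : Fin n → G → ℂ) (φ : Fin n → Reg ℓ G → ℂ) (d : Fin n → Fin n → ℕ),
    Function.Injective χ ∧ (∀ i, χ i ∈ IrrB M X₀) ∧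
    Function.Injective φ ∧ Set.range φ = IBrB M ℓ X₀ ∧
    (∀ i (g : Reg ℓ G), χ i g.1 = ∑ j, (d i j : ℂ) * φ j g) ∧
    (∀ i, d i i = 1) ∧ ∀ i j, i < j → d i j = 0

end Pool.Agent.P8H59.UT
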