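import Pool.Agent.P8H59.UT.Hw

/-!
# Dimensions of irreducible representations of `SL₂(9)`
-/

set_option autoImplicit false
set_option linter.all false

namespace Pool.Agent.P8H59.UT

open Matrix Representation Finset

variable {K k V : Type} [Field K] [Field k] [AddCommGroup V] [Module k V]
  {ρ : Representation k (SL2 K) V} [Fintype K] [DecidableEq K]
  {ξ : V →ₗ[k] k} {μ : MulChar K k}

lemma sum_pow (hcard : Fintype.card K = 9) (σ : K →+* k) (j : ℕ) :
    ∑ β : Kˣ, σ (β : K) ^ j = if 8 ∣ j then -1 else 0 := by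
  have h := FiniteField.sum_pow_units K j
  rw [hcard] at h
  have h2 := congrArg σ h
  rw [map_sum] at h2
  simp only [map_pow, Units.val_pow_eq_pow_val] at h2
  rw [h2]
  split_ifs <;> simp

lemma orth (hcard : Fintype.card K = 9) (σ : K →+* k) {m i j : ℕ} (hm : m ≤ 7) (hi : i ≤ m)
    (hj : j ≤ m) : ∑ β : Kˣ, σ (β : K) ^ (8 - i) * σ (β : K) ^ j = if j = i then -1 else 0 := by
  simp only [← pow_add]
  rw [sum_pow hcard]
  by_cases h : j = i
  · rw [if_pos h, if_pos]
    subst h
    exact ⟨1, by omega⟩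
  · rw [if_neg h, if_neg]
    omega

/-- the monomial functions -/
def mon (σ : K →+* k) (m i : ℕ) : SL2 K → k := fun g => σ (g 1 1) ^ i * σ (g 1 0) ^ (m - i)

lemma mon_indep (hcard : Fintype.card K = 9) (σ : K →+* k) {m : ℕ} (hm : m ≤ 7) :
    LinearIndependent k (fun i : Fin (m + 1) => mon σ m (i : ℕ)) := by
  rw [Fintype.linearIndependent_iff]
  intro c hc i
  -- evaluate at the elements with lower row `(1, t)`
  have h1 : ∀ t : K, ∑ j : Fin (m + 1), c j * σ t ^ (j : ℕ) = 0 := by
    intro t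
    have := congrFun hc (w * UT.u t)
    rw [Finset.sum_apply] at this
    simp only [Pi.smul_apply, smul_eq_mul, Pi.zero_apply] at this
    rw [← this]
    refine Finset.sum_congr rfl fun j _ => ?_
    have h10 : (w * UT.u t : SL2 K) 1 0 = 1 := by simp only [mul10]; simp
    have h11 : (w * UT.u t : SL2 K) 1 1 = t := by simp only [mul11]; simp
    rw [mon, h10, h11, map_one, one_pow, mul_one]
  have h2 : ∑ β : Kˣ, σ (β : K) ^ (8 - (i : ℕ)) * ∑ j : Fin (m + 1), c j * σ (β : K) ^ (j : ℕ) = 0 := by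
    refine Finset.sum_eq_zero fun β _ => ?_
    rw [h1, mul_zero]
  simp only [Finset.mul_sum] at h2
  rw [Finset.sum_comm] at h2
  have h3 : ∀ j : Fin (m + 1), ∑ β : Kˣ, σ (β : K) ^ (8 - (i : ℕ)) * (c j * σ (β : K) ^ (j : ℕ)) =
      if j = i then - c j else 0 := by
    intro j
    have := orth hcard σ hm (Nat.lt_succ_iff.1 i.2) (Nat.lt_succ_iff.1 j.2)
    have h4 : ∑ β : Kˣ, σ (β : K) ^ (8 - (i : ℕ)) * (c j * σ (β : K) ^ (j : ℕ)) =
        c j * ∑ β : Kˣ, σ (β : K) ^ (8 - (i : ℕ)) * σ (β : K) ^ (j : ℕ) := by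
      rw [Finset.mul_sum]
      refine Finset.sum_congr rfl fun β _ => ?_
      ring
    rw [h4, this]
    by_cases hji : j = i
    · subst hji; simp
    · rw [if_neg hji, if_neg (fun h => hji (Fin.ext h)), mul_zero]
  simp only [h3] at h2
  simpa using h2

/-- **Dimension formula.** -/
theorem finrank_modular (hcard : Fintype.card K = 9) (σ : K →+* k) [CharP k 3]
    (hr : ρ.IsIrreducible) (H : Hw ρ ξ μ) {x₁ : V} {κ : k} (hκ : κ ≠ 0)
    (hx : ∀ g, ξ (ρ g x₁) = κ * μ⁻¹ (g 1 0)) {m : ℕ} (hm : m ≤ 7)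
    (hμ : ∀ c, μ⁻¹ c = σ c ^ m) :
    Module.finrank k V = ((range (m + 1)).filter fun i => ¬ 3 ∣ m.choose i).card := by
  classical
  have hx1 : x₁ ≠ 0 := by
    intro h0
    have := hx w
    rw [h0, map_zero, map_zero, hμ, w10, map_one, one_pow, mul_one] at this
    exact hκ this.symm
  let I : Finset (Fin (m + 1)) := Finset.univ.filter fun i => ¬ 3 ∣ m.choose (i : ℕ)
  let e : I → (SL2 K → k) := fun i => mon σ m (i : Fin (m + 1))
  have he : LinearIndependent k e := (mon_indep hcard σ hm).comp _ Subtype.val_injective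
  -- the coefficients of translates of `x₁`
  have hpow : ∀ g g' : SL2 K, coef ρ ξ (ρ g' x₁) g =
      κ * ∑ j ∈ range (m + 1), (σ (g' 1 0) ^ j * σ (g' 0 0) ^ (m - j) * (m.choose j : k)) *
        mon σ m j g := by
    intro g g'
    have h1 : coef ρ ξ (ρ g' x₁) g = ξ (ρ (g * g') x₁) := by
      rw [coef_apply, map_mul]; rfl
    rw [h1, hx, hμ, mul10, map_add, map_mul, map_mul, add_comm, add_pow]
    congr 1
    refine Finset.sum_congr rfl fun j hj => ?_
    rw [mon, mul_pow, mul_pow]
    ring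
  have hrange : LinearMap.range (coef ρ ξ) = Submodule.span k (Set.range e) := by
    apply le_antisymm
    · rw [LinearMap.range_eq_map, ← span_orbit hr hx1, Submodule.map_span, Submodule.span_le]
      rintro _ ⟨_, ⟨g', rfl⟩, rfl⟩
      have : coef ρ ξ (ρ g' x₁) = ∑ j ∈ range (m + 1),
          (κ * (σ (g' 1 0) ^ j * σ (g' 0 0) ^ (m - j) * (m.choose j : k))) • mon σ m j := by
        funext g
        rw [hpow, Finset.sum_apply, Finset.mul_sum]
        refine Finset.sum_congr rfl fun j _ => ?_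
        rw [Pi.smul_apply, smul_eq_mul]
        ring
      simp only [SetLike.mem_coe]
      rw [this]
      refine Submodule.sum_mem _ fun j hj => ?_
      by_cases h3 : 3 ∣ m.choose j
      · have : (m.choose j : k) = 0 := (CharP.cast_eq_zero_iff k 3 _).2 h3
        rw [this, mul_zero, mul_zero, zero_smul]
        exact Submodule.zero_mem _
      · refine Submodule.smul_mem _ _ (Submodule.subset_span ⟨⟨⟨j, Finset.mem_range.1 hj⟩, ?_⟩, rfl⟩)
        simp only [I, Finset.mem_filter, Finset.mem_univ, true_and]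
        exact h3
    · rw [Submodule.span_le]
      rintro _ ⟨⟨i, hi⟩, rfl⟩
      simp only [I, Finset.mem_filter, Finset.mem_univ, true_and] at hi
      have hi3 : (m.choose (i : ℕ) : k) ≠ 0 := fun h => hi ((CharP.cast_eq_zero_iff k 3 _).1 h)
      have him : (i : ℕ) ≤ m := Nat.lt_succ_iff.1 i.2
      have hb : coef ρ ξ (∑ β : Kˣ, σ (β : K) ^ (8 - (i : ℕ)) • ρ (UT.l (β : K)) x₁) =
          (-(κ * (m.choose (i : ℕ) : k))) • mon σ m i := by
        rw [map_sum]
        funext g
        rw [Finset.sum_apply, Pi.smul_apply, smul_eq_mul]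
        have h5 : ∀ β : Kˣ, coef ρ ξ (σ (β : K) ^ (8 - (i : ℕ)) • ρ (UT.l (β : K)) x₁) g =
            ∑ j ∈ range (m + 1), (κ * (m.choose j : k) * mon σ m j g) *
              (σ (β : K) ^ (8 - (i : ℕ)) * σ (β : K) ^ j) := by
          intro β
          rw [map_smul, Pi.smul_apply, hpow, smul_eq_mul, Finset.mul_sum, Finset.mul_sum]
          refine Finset.sum_congr rfl fun j _ => ?_
          rw [l10, l00, map_one, one_pow]
          ring
        simp only [h5]
        rw [Finset.sum_comm]
        rw [Finset.sum_eq_single (i : ℕ)]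
        · rw [← Finset.mul_sum, orth hcard σ hm him him, if_pos rfl]
          ring
        · intro j hj hji
          rw [← Finset.mul_sum, orth hcard σ hm him (Nat.lt_succ_iff.1 (Finset.mem_range.1 hj)),
            if_neg hji, mul_zero]
        · intro h
          exact absurd (Finset.mem_range.2 i.2) h
      have hne : -(κ * (m.choose (i : ℕ) : k)) ≠ 0 := neg_ne_zero.2 (mul_ne_zero hκ hi3)
      have : e ⟨i, by simpa [I] using hi⟩ = coef ρ ξ
          ((-(κ * (m.choose (i : ℕ) : k)))⁻¹ • ∑ β : Kˣ, σ (β : K) ^ (8 - (i : ℕ)) • ρ (UT.l (β : K)) x₁) := by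
        rw [map_smul, hb, smul_smul, inv_mul_cancel₀ hne, one_smul]
      exact ⟨_, this.symm⟩
  have h1 : Module.finrank k (LinearMap.range (coef ρ ξ)) = Module.finrank k V :=
    LinearMap.finrank_range_of_inj (coef_injective hr H.ne)
  rw [← h1, hrange, finrank_span_eq_card he, Fintype.card_coe]
  -- compare the two index sets
  refine Finset.card_bij (fun i _ => (i : ℕ)) ?_ ?_ ?_
  · intro i hi
    simp only [I, Finset.mem_filter, Finset.mem_univ, true_and] at hi
    rw [Finset.mem_filter, Finset.mem_range]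
    exact ⟨i.2, hi⟩
  · intro i _ j _ hij
    exact Fin.ext hij
  · intro j hj
    rw [Finset.mem_filter, Finset.mem_range] at hj
    exact ⟨⟨j, hj.1⟩, by simp [I, hj.2], rfl⟩

end Pool.Agent.P8H59.UT
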