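import Pool.Agent.P8H59.UT.Eig

/-!
# Dimensions of faithful irreducible representations of `SL₂(9)` in characteristics `3` and `0`
-/

set_option autoImplicit false
set_option linter.all false

namespace Pool.Agent.P8H59.UT

open Matrix Representation Finset

variable {K : Type} [Field K] [Fintype K] [DecidableEq K]

/-- a generator of the group of units, and its fourth power -/
lemma exists_gen (hcard : Fintype.card K = 9) : ∃ a0 : Kˣ, (∀ a, a ∈ Subgroup.zpowers a0) ∧
    IsPrimitiveRoot (a0 : K) 8 ∧ (a0 : K) ^ 4 = -1 := by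
  classical
  obtain ⟨a0, ha0⟩ := IsCyclic.exists_generator (α := Kˣ)
  have ho : orderOf a0 = 8 := by
    rw [orderOf_eq_card_of_forall_mem_zpowers ha0, Nat.card_eq_fintype_card, Fintype.card_units, hcard]
  have hp : IsPrimitiveRoot (a0 : K) 8 := by
    rw [← ho]
    exact IsPrimitiveRoot.coe_units_iff.2 (IsPrimitiveRoot.orderOf a0)
  refine ⟨a0, ha0, hp, ?_⟩
  have h8 : ((a0 : K) ^ 4) ^ 2 = 1 := by
    rw [← pow_mul]
    exact hp.pow_eq_one
  rcases sq_eq_one_iff.1 h8 with h | h
  · exfalso
    have := hp.dvd_of_pow_eq_one 4 h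
    omega
  · exact h

section modular

variable {k V : Type} [Field k] [AddCommGroup V] [Module k V] {ρ : Representation k (SL2 K) V}

/-- **Characteristic 3.** -/
theorem finrank_char3 (hcard : Fintype.card K = 9) [CharP K 3] [CharP k 3] [IsAlgClosed k]
    [FiniteDimensional k V] (σ : K →+* k) (hr : ρ.IsIrreducible) (hneg : ∀ x, ρ (-1) x = -x) :
    Module.finrank k V = 2 ∨ Module.finrank k V = 6 := by
  haveI : Nontrivial V := ((irr_iff ρ).1 hr).1
  haveI : Nontrivial (Module.Dual k V) := inferInstance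
  have h2 : (2 : k) ≠ 0 := by
    intro h
    have : ((2 : ℕ) : k) = 0 := by exact_mod_cast h
    have := (CharP.cast_eq_zero_iff k 3 2).1 this
    omega
  obtain ⟨ξ, μ, H⟩ := exists_hw (ρ := ρ) (fixU_ne_bot_char3 (ρ := ρ.dual))
  obtain ⟨x, hx0, hxu, hxh⟩ := exists_eig (ρ := ρ) fixU_ne_bot_char3
  obtain ⟨a0, ha0, hp, ha4⟩ := exists_gen hcard
  obtain ⟨x₁, κ, hκ, hx₁⟩ := exists_x1 hr hneg h2 (a0 ^ 2)
    (by rw [Units.val_pow_eq_pow_val, ← pow_mul]; exact ha4) H hx0 hxu hxh
  -- the character is a power of the embedding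
  have hpσ : IsPrimitiveRoot (σ (a0 : K)) 8 := hp.map_of_injective σ.injective
  have hα : (μ⁻¹ (a0 : K)) ^ 8 = 1 := by
    rw [← map_pow, hp.pow_eq_one, map_one]
  obtain ⟨m, hm8, hm⟩ := hpσ.eq_pow_of_pow_eq_one hα
  have hμneg : μ⁻¹ (-1 : K) = -1 := by
    rw [MulChar.inv_apply', inv_neg, inv_one, H.neg_one hneg]
  have hodd : Odd m := by
    rw [← Nat.not_even_iff_odd]
    intro hev
    have h1 : μ⁻¹ ((a0 : K) ^ 4) = σ ((a0 : K) ^ 4) ^ m := by
      rw [map_pow, map_pow, ← hm]
      ring
    rw [ha4, hμneg, map_neg, map_one, hev.neg_one_pow] at h1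
    apply h2
    linear_combination -h1
  have hμσ : ∀ c, μ⁻¹ c = σ c ^ m := by
    intro c
    by_cases hc : c = 0
    · rw [hc, MulChar.map_zero, map_zero, zero_pow]
      exact hodd.pos.ne'
    · obtain ⟨n, hn⟩ := (mem_powers_iff_mem_zpowers (x := a0) (y := Units.mk0 c hc)).2 (ha0 _)
      have hn' : (a0 : K) ^ n = c := by
        have := congrArg (fun z : Kˣ => (z : K)) hn
        simpa using this
      rw [← hn', map_pow, map_pow, ← hm]
      ring
  have hfin := finrank_modular hcard σ hr H hκ hx₁ (by omega) hμσ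
  rw [hfin]
  have : m = 1 ∨ m = 3 ∨ m = 5 ∨ m = 7 := by
    obtain ⟨t, ht⟩ := hodd
    omega
  rcases this with rfl | rfl | rfl | rfl
  · left; decide
  · left; decide
  · right; decide
  · right; decide

end modular

section ordinary

variable {V : Type} [AddCommGroup V] [Module ℂ V] {ρ : Representation ℂ (SL2 K) V}

/-- principal series: the dimension is at least `10` -/
theorem finrank_principal (hcard : Fintype.card K = 9) [FiniteDimensional ℂ V]
    (hr : ρ.IsIrreducible) (hneg : ∀ x, ρ (-1) x = -x) {ξ : V →ₗ[ℂ] ℂ} {μ : MulChar K ℂ}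
    (H : Hw ρ ξ μ) {x₁ : V} {κ : ℂ} (hκ : κ ≠ 0) (hx : ∀ g, ξ (ρ g x₁) = κ * μ⁻¹ (g 1 0)) :
    10 ≤ Module.finrank ℂ V := by
  classical
  have hμneg : μ⁻¹ (-1 : K) = -1 := by
    rw [MulChar.inv_apply', inv_neg, inv_one, H.neg_one hneg]
  have hμ1 : μ⁻¹ ≠ 1 := by
    intro h1
    rw [h1] at hμneg
    have : (1 : MulChar K ℂ) (-1 : K) = 1 := by
      have := MulChar.one_apply_coe (R' := ℂ) (-1 : Kˣ)
      simpa using this
    rw [this] at hμneg
    norm_num at hμneg
  -- a vector with coefficients supported on the upper triangular matrices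
  let x₂ : V := ∑ s : K, ρ (u s) (ρ w x₁)
  have hx₂ : ∀ g : SL2 K, ξ (ρ g x₂) = if g 1 0 = 0 then 9 * κ * μ⁻¹ (g 1 1) else 0 := by
    intro g
    have h1 : ∀ s : K, ξ (ρ g (ρ (u s) (ρ w x₁))) = κ * μ⁻¹ (g 1 0 * s + g 1 1) := by
      intro s
      have h1 : ρ g (ρ (u s) (ρ w x₁)) = ρ (g * (u s * w)) x₁ := by
        rw [map_mul, map_mul]; rfl
      have h10 : (g * (u s * w) : SL2 K) 1 0 = g 1 0 * s + g 1 1 := by
        simp only [mul00, mul01, mul10, mul11]; simp
      rw [h1, hx, h10]
    simp only [x₂, map_sum, h1]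
    rw [← Finset.mul_sum]
    split_ifs with hg
    · simp only [hg, zero_mul, zero_add, Finset.sum_const, Finset.card_univ, hcard]
      rw [nsmul_eq_mul]
      push_cast
      ring
    · have h2 : ∑ s : K, μ⁻¹ (g 1 0 * s + g 1 1) = ∑ y : K, μ⁻¹ y := by
        refine Fintype.sum_bijective (fun s => g 1 0 * s + g 1 1) ?_ _ _ (fun s => rfl)
        refine (Finite.injective_iff_bijective).1 ?_
        intro s t hst
        simp only at hst
        exact mul_left_cancel₀ hg (add_right_cancel hst)
      rw [h2, MulChar.sum_eq_zero_of_ne_one hμ1, mul_zero]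
  -- ten translates
  let r : Option K → SL2 K := fun o => o.elim 1 fun s => w * u s
  have hr10 : ∀ o o' : Option K, (r o * (r o')⁻¹ : SL2 K) 1 0 = 0 ↔ o = o' := by
    intro o o'
    constructor
    · intro h0
      have hlow : ∀ g g' : SL2 K, (g * g'⁻¹ : SL2 K) 1 0 = 0 → g 1 0 * g' 1 1 = g 1 1 * g' 1 0 := by
        intro g g' h
        rw [mul10] at h
        have e1 : (g'⁻¹ : SL2 K) 0 0 = g' 1 1 := by
          rw [Matrix.SpecialLinearGroup.SL2_inv_expl]; rfl
        have e2 : (g'⁻¹ : SL2 K) 1 0 = - g' 1 0 := by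
          rw [Matrix.SpecialLinearGroup.SL2_inv_expl]; rfl
        rw [e1, e2] at h
        linear_combination h
      have h1 := hlow _ _ h0
      cases o with
      | none =>
        cases o' with
        | none => rfl
        | some t =>
          simp only [r, Option.elim, mul10, mul11] at h1
          simp at h1
      | some s =>
        cases o' with
        | none =>
          simp only [r, Option.elim, mul10, mul11] at h1
          simp at h1
        | some t =>
          simp only [r, Option.elim, mul10, mul11] at h1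
          simp at h1
          rw [h1]
    · rintro rfl
      rw [mul_inv_cancel]
      simp
  have hli : LinearIndependent ℂ fun o : Option K => ρ (r o)⁻¹ x₂ := by
    rw [Fintype.linearIndependent_iff]
    intro c hc o
    have h1 := congrArg (fun v => ξ (ρ (r o) v)) hc
    simp only [map_sum, map_zero, map_smul, smul_eq_mul] at h1
    have h2 : ∀ o', ξ (ρ (r o) (ρ (r o')⁻¹ x₂)) =
        if o = o' then 9 * κ * μ⁻¹ ((r o * (r o')⁻¹ : SL2 K) 1 1) else 0 := by
      intro o'
      rw [← Module.End.mul_apply, ← map_mul, hx₂]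
      simp only [hr10]
    simp only [h2, mul_ite, mul_zero] at h1
    rw [Finset.sum_ite_eq] at h1
    simp only [Finset.mem_univ, if_true] at h1
    have h3 : (r o * (r o)⁻¹ : SL2 K) 1 1 = 1 := by
      rw [mul_inv_cancel]; simp
    rw [h3, map_one, mul_one] at h1
    rcases mul_eq_zero.1 h1 with h4 | h4
    · exact h4
    · exfalso
      rcases mul_eq_zero.1 h4 with h5 | h5
      · norm_num at h5
      · exact hκ h5
  have := hli.fintype_card_le_finrank
  rw [Fintype.card_option, hcard] at this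
  exact this

/-- the trace of an element of finite order is an algebraic integer -/
lemma isIntegral_trace [FiniteDimensional ℂ V] (f : V →ₗ[ℂ] V) {n : ℕ} (hn : 0 < n) (hf : f ^ n = 1) :
    IsIntegral ℤ (LinearMap.trace ℂ V f) := by
  classical
  rw [Module.End.trace_eq_sum_roots_charpoly_of_splits (IsAlgClosed.splits _)]
  apply IsIntegral.multiset_sum
  intro z hz
  have hz' : Module.End.HasEigenvalue f z := by
    rw [Module.End.hasEigenvalue_iff_isRoot_charpoly]
    exact (Polynomial.mem_roots'.1 hz).2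
  obtain ⟨v, hv⟩ := hz'.exists_hasEigenvector
  have h1 : (f ^ n) v = z ^ n • v := hv.pow_apply n
  rw [hf, Module.End.one_apply] at h1
  have h2 : z ^ n = 1 := by
    have : (z ^ n - 1) • v = 0 := by rw [sub_smul, one_smul, ← h1, sub_self]
    rcases smul_eq_zero.1 this with h3 | h3
    · exact sub_eq_zero.1 h3
    · exact absurd h3 hv.2
  exact IsIntegral.of_pow hn (by rw [h2]; exact isIntegral_one)

lemma int_of_integral {q : ℚ} (hq : IsIntegral ℤ ((q : ℚ) : ℂ)) : ∃ z : ℤ, (z : ℚ) = q := by
  have h1 : IsIntegral ℤ q := by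
    have : ((q : ℚ) : ℂ) = algebraMap ℚ ℂ q := rfl
    rw [this] at hq
    exact (isIntegral_algebraMap_iff (algebraMap ℚ ℂ).injective).1 hq
  obtain ⟨z, hz⟩ := IsIntegrallyClosed.isIntegral_iff.1 h1
  exact ⟨z, hz⟩

/-- discrete series: `4` divides the dimension -/
theorem four_dvd (hcard : Fintype.card K = 9) [FiniteDimensional ℂ V] (hE : fixU ρ.dual = ⊥) :
    4 ∣ Module.finrank ℂ V := by
  classical
  obtain ⟨a0, ha0, hp, ha4⟩ := exists_gen hcard
  -- the sum of the unipotent elements acts as zero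
  have hz : ∀ y : V, ∑ s : K, ρ (u s) y = 0 := by
    intro y
    rw [← Module.forall_dual_apply_eq_zero_iff ℂ]
    intro η
    have h1 : (∑ s : K, η.comp (ρ (u s)) : Module.Dual ℂ V) ∈ fixU ρ.dual := by
      intro t
      ext v
      simp only [Representation.dual_apply, Module.Dual.transpose_apply, LinearMap.comp_apply,
        LinearMap.sum_apply]
      refine Fintype.sum_equiv (Equiv.subRight t) _ _ fun s => ?_
      rw [← Module.End.mul_apply, ← map_mul]
      congr 3
      have : (u t)⁻¹ = u (-t) := by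
        rw [inv_eq_iff_mul_eq_one, u_mul, add_neg_cancel, u_zero]
      rw [this, u_mul, Equiv.subRight_apply, sub_eq_add_neg]
    rw [hE, Submodule.mem_bot] at h1
    have h2 := congrArg (fun f : Module.Dual ℂ V => f y) h1
    simpa using h2
  have hzero : ∑ s : K, ρ (u s) = 0 := by
    ext y
    rw [LinearMap.sum_apply, hz]; rfl
  have htr : ∑ s : K, LinearMap.trace ℂ V (ρ (u s)) = 0 := by
    rw [← map_sum, hzero, map_zero]
  -- conjugation
  let f : Kˣ → ℂ := fun a => LinearMap.trace ℂ V (ρ (u (a : K)))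
  have hf : ∀ a b : Kˣ, f (b ^ 2 * a) = f a := by
    intro a b
    have h1 : u ((b ^ 2 * a : Kˣ) : K) = h b * u (a : K) * (h b)⁻¹ := by
      rw [h_u, mul_assoc, mul_inv_cancel, mul_one]
      congr 1
    simp only [f]
    rw [h1, map_mul, LinearMap.trace_mul_comm, ← map_mul, ← mul_assoc, inv_mul_cancel, one_mul]
  have hsplit : ∑ s : K, LinearMap.trace ℂ V (ρ (u s)) =
      LinearMap.trace ℂ V (ρ (u 0)) + ∑ a : Kˣ, f a := by
    rw [← Finset.add_sum_erase _ _ (Finset.mem_univ (0 : K))]
    congr 1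
    symm
    refine Finset.sum_bij (fun (a : Kˣ) _ => (a : K)) ?_ ?_ ?_ ?_
    · intro a _
      rw [Finset.mem_erase]
      exact ⟨a.ne_zero, Finset.mem_univ _⟩
    · intro a _ b _ hab
      exact Units.ext hab
    · intro b hb
      rw [Finset.mem_erase] at hb
      exact ⟨Units.mk0 b hb.1, Finset.mem_univ _, rfl⟩
    · intro a _
      rfl
  have hbij : Function.Bijective fun j : Fin 8 => a0 ^ (j : ℕ) := by
    rw [Fintype.bijective_iff_injective_and_card]
    refine ⟨?_, ?_⟩
    · intro i j hij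
      have h8 : orderOf a0 = 8 := by
        have := hp.eq_orderOf
        rw [this, orderOf_units]
      simp only at hij
      have := pow_inj_mod.1 hij
      rw [h8, Nat.mod_eq_of_lt i.2, Nat.mod_eq_of_lt j.2] at this
      exact Fin.ext this
    · rw [Fintype.card_fin, Fintype.card_units, hcard]
  have hsum : ∑ a : Kˣ, f a = 4 * (f 1 + f a0) := by
    rw [← hbij.sum_comp f, Fin.sum_univ_eight]
    have e0 : f (a0 ^ ((0 : Fin 8) : ℕ)) = f 1 := by simp
    have e1 : f (a0 ^ ((1 : Fin 8) : ℕ)) = f a0 := by simp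
    have e2 : f (a0 ^ ((2 : Fin 8) : ℕ)) = f 1 := by
      have := hf 1 a0; rw [mul_one] at this; exact this
    have e3 : f (a0 ^ ((3 : Fin 8) : ℕ)) = f a0 := by
      have := hf a0 a0
      rw [← pow_succ] at this; exact this
    have e4 : f (a0 ^ ((4 : Fin 8) : ℕ)) = f 1 := by
      have := hf 1 (a0 ^ 2); rw [mul_one, ← pow_mul] at this; exact this
    have e5 : f (a0 ^ ((5 : Fin 8) : ℕ)) = f a0 := by
      have := hf a0 (a0 ^ 2)
      rw [← pow_mul, ← pow_succ] at this; exact this
    have e6 : f (a0 ^ ((6 : Fin 8) : ℕ)) = f 1 := by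
      have := hf 1 (a0 ^ 3); rw [mul_one, ← pow_mul] at this; exact this
    have e7 : f (a0 ^ ((7 : Fin 8) : ℕ)) = f a0 := by
      have := hf a0 (a0 ^ 3)
      rw [← pow_mul, ← pow_succ] at this; exact this
    rw [e0, e1, e2, e3, e4, e5, e6, e7]
    ring
  rw [hsplit, hsum, u_zero, map_one, LinearMap.trace_one] at htr
  have hint : ∀ a : Kˣ, IsIntegral ℤ (f a) := by
    intro a
    refine isIntegral_trace _ (n := 9) (by norm_num) ?_
    rw [← map_pow]
    have : ∀ n : ℕ, (u (a : K)) ^ n = u (n * (a : K)) := by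
      intro n
      induction n with
      | zero => rw [pow_zero, Nat.cast_zero, zero_mul, u_zero]
      | succ n ih =>
        rw [pow_succ, ih, u_mul]
        push_cast
        ring_nf
    rw [this]
    have h9 : ((9 : ℕ) : K) = 0 := by
      rw [← hcard]; exact Nat.cast_card_eq_zero K
    rw [h9, zero_mul, u_zero, map_one]
  have h3 : IsIntegral ℤ ((((-(Module.finrank ℂ V : ℚ) / 4 : ℚ)) : ℚ) : ℂ) := by
    have : (((-(Module.finrank ℂ V : ℚ) / 4 : ℚ) : ℚ) : ℂ) = f 1 + f a0 := by
      push_cast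
      linear_combination (-1/4) * htr
    rw [this]
    exact (hint 1).add (hint a0)
  obtain ⟨z, hz⟩ := int_of_integral h3
  have h4 : (Module.finrank ℂ V : ℚ) = 4 * (-z) := by
    rw [hz]; ring
  have h5 : (Module.finrank ℂ V : ℤ) = 4 * (-z) := by exact_mod_cast h4
  have h6 : (4 : ℤ) ∣ (Module.finrank ℂ V : ℤ) := ⟨_, h5⟩
  exact_mod_cast h6

/-- **Characteristic 0.** -/
theorem finrank_char0 (hcard : Fintype.card K = 9) [FiniteDimensional ℂ V]
    (hr : ρ.IsIrreducible) (hneg : ∀ x, ρ (-1) x = -x) :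
    Module.finrank ℂ V ≠ 2 ∧ Module.finrank ℂ V ≠ 6 := by
  classical
  by_cases hE : fixU ρ.dual = ⊥
  · have := four_dvd hcard hE
    constructor
    · intro h; rw [h] at this; omega
    · intro h; rw [h] at this; omega
  · obtain ⟨ξ, μ, H⟩ := exists_hw (ρ := ρ) hE
    have hfix : fixU ρ ≠ ⊥ := by
      obtain ⟨y, hy⟩ : ∃ x, ξ x ≠ 0 := by
        by_contra hc
        push Not at hc
        exact H.ne (LinearMap.ext hc)
      have h1 : (∑ s : K, ρ (u s) y) ∈ fixU ρ := by
        intro t
        rw [map_sum]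
        refine Fintype.sum_equiv (Equiv.addLeft t) _ _ fun s => ?_
        rw [← Module.End.mul_apply, ← map_mul, u_mul, Equiv.coe_addLeft]
      intro hb
      rw [hb, Submodule.mem_bot] at h1
      have h2 := congrArg ξ h1
      rw [map_sum, map_zero] at h2
      simp only [H.u, Finset.sum_const, Finset.card_univ, hcard, nsmul_eq_mul] at h2
      rcases mul_eq_zero.1 h2 with h3 | h3
      · norm_num at h3
      · exact hy h3
    obtain ⟨x, hx0, hxu, hxh⟩ := exists_eig (ρ := ρ) hfix
    obtain ⟨a0, ha0, hp, ha4⟩ := exists_gen hcard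
    obtain ⟨x₁, κ, hκ, hx₁⟩ := exists_x1 hr hneg (by norm_num) (a0 ^ 2)
      (by rw [Units.val_pow_eq_pow_val, ← pow_mul]; exact ha4) H hx0 hxu hxh
    have := finrank_principal hcard hr hneg H hκ hx₁
    constructor <;> omega

end ordinary

end Pool.Agent.P8H59.UT
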