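import Pool.Agent.P8H59.UT.Dim

/-!
# Existence of highest weight vectors and functionals
-/

set_option autoImplicit false
set_option linter.all false

namespace Pool.Agent.P8H59.UT

open Matrix Representation Finset

variable {K k V : Type} [Field K] [Field k] [AddCommGroup V] [Module k V]
  {ρ : Representation k (SL2 K) V}

/-- the vectors fixed by the upper unipotent elements -/
def fixU (ρ : Representation k (SL2 K) V) : Submodule k V where
  carrier := {x | ∀ s, ρ (u s) x = x}
  add_mem' := by
    intro a b ha hb s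
    rw [map_add, ha s, hb s]
  zero_mem' := fun s => map_zero _
  smul_mem' := by
    intro c x hx s
    rw [map_smul, hx s]

lemma mem_fixU {x : V} : x ∈ fixU ρ ↔ ∀ s, ρ (u s) x = x := Iff.rfl

lemma h_fixU (a : Kˣ) {x : V} (hx : x ∈ fixU ρ) : ρ (h a) x ∈ fixU ρ := by
  intro s
  have h1 : u s * h a = h a * u ((a : K)⁻¹ ^ 2 * s) := by
    rw [h_u]
    congr 2
    have := a.ne_zero
    field_simp
  have h2 : ρ (u s) (ρ (h a) x) = ρ (h a) (ρ (u ((a : K)⁻¹ ^ 2 * s)) x) := by
    rw [← Module.End.mul_apply, ← map_mul, h1, map_mul]; rfl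
  rw [h2, hx]

/-- unipotent elements have common fixed vectors in characteristic `3` -/
theorem fixU_ne_bot_char3 [Fintype K] [CharP K 3] [CharP k 3] [Nontrivial V] : fixU ρ ≠ ⊥ := by
  classical
  have key : ∀ S : Finset K, ∃ x : V, x ≠ 0 ∧ ∀ s ∈ S, ρ (u s) x = x := by
    intro S
    induction S using Finset.induction_on with
    | empty =>
      obtain ⟨x, hx⟩ := exists_ne (0 : V)
      exact ⟨x, hx, by simp⟩
    | insert s S hs ih =>
      obtain ⟨x, hx0, hx⟩ := ih
      -- the operator `N = ρ (u s) - 1`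
      let N : V →ₗ[k] V := ρ (u s) - 1
      have hN : ∀ y, N y = ρ (u s) y - y := fun y => rfl
      have hcomm : ∀ t y, ρ (u t) (N y) = N (ρ (u t) y) := by
        intro t y
        rw [hN, hN, map_sub]
        congr 1
        rw [← Module.End.mul_apply, ← Module.End.mul_apply, ← map_mul, ← map_mul, u_mul, u_mul,
          add_comm]
      have hpres : ∀ y, (∀ t ∈ S, ρ (u t) y = y) → ∀ t ∈ S, ρ (u t) (N y) = N y := by
        intro y hy t ht
        rw [hcomm, hy t ht]
      have hN3 : ∀ y, N (N (N y)) = 0 := by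
        intro y
        have h2 : ρ (u s) (ρ (u s) y) = ρ (u (s + s)) y := by
          rw [← Module.End.mul_apply, ← map_mul, u_mul]
        have h3 : ρ (u s) (ρ (u (s + s)) y) = y := by
          rw [← Module.End.mul_apply, ← map_mul, u_mul]
          have : s + (s + s) = 0 := by
            have h3 : (3 : K) = 0 := by exact_mod_cast CharP.cast_eq_zero K 3
            linear_combination s * h3
          rw [this, u_zero, map_one]
          rfl
        simp only [hN, map_sub, h2, h3]
        have h3' : (3 : k) = 0 := by exact_mod_cast CharP.cast_eq_zero k 3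
        have : y - ρ (u (s + s)) y - (ρ (u (s + s)) y - ρ (u s) y) -
            (ρ (u (s + s)) y - ρ (u s) y - (ρ (u s) y - y)) =
            (3 : k) • (ρ (u s) y - ρ (u (s + s)) y) := by
          rw [show (3 : k) = 1 + 1 + 1 by norm_num, add_smul, add_smul, one_smul]
          abel
        rw [this, h3', zero_smul]
      by_cases h1 : N x = 0
      · refine ⟨x, hx0, fun t ht => ?_⟩
        rcases Finset.mem_insert.1 ht with rfl | ht
        · exact sub_eq_zero.1 h1
        · exact hx t ht
      · by_cases h2 : N (N x) = 0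
        · refine ⟨N x, h1, fun t ht => ?_⟩
          rcases Finset.mem_insert.1 ht with rfl | ht
          · exact sub_eq_zero.1 h2
          · exact hpres x hx t ht
        · refine ⟨N (N x), h2, fun t ht => ?_⟩
          rcases Finset.mem_insert.1 ht with rfl | ht
          · exact sub_eq_zero.1 (hN3 x)
          · exact hpres _ (hpres x hx) t ht
  obtain ⟨x, hx0, hx⟩ := key Finset.univ
  intro hb
  have : x ∈ fixU ρ := fun s => hx s (Finset.mem_univ _)
  rw [hb] at this
  exact hx0 (by simpa using this)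

/-- the torus has an eigenvector in the space of fixed vectors -/
theorem exists_eig [Fintype K] [IsAlgClosed k] [FiniteDimensional k V] (hE : fixU ρ ≠ ⊥) :
    ∃ x : V, x ≠ 0 ∧ (∀ s, ρ (u s) x = x) ∧ ∀ a : Kˣ, ∃ c : k, ρ (h a) x = c • x := by
  obtain ⟨a0, ha0⟩ := IsCyclic.exists_generator (α := Kˣ)
  haveI : Nontrivial (fixU ρ) := (Submodule.nontrivial_iff_ne_bot).2 hE
  let T : fixU ρ →ₗ[k] fixU ρ := (ρ (h a0)).restrict fun x hx => h_fixU a0 hx
  obtain ⟨c, hc⟩ := Module.End.exists_eigenvalue T
  obtain ⟨y, hy⟩ := hc.exists_hasEigenvector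
  have hy1 : ρ (h a0) (y : V) = c • (y : V) := congrArg Subtype.val hy.apply_eq_smul
  refine ⟨y, fun h0 => hy.2 (Subtype.ext h0), y.2, ?_⟩
  intro a
  obtain ⟨n, hn⟩ := (mem_powers_iff_mem_zpowers (x := a0) (y := a)).2 (ha0 a)
  have hn' : a0 ^ n = a := hn
  refine ⟨c ^ n, ?_⟩
  rw [← hn']
  clear hn hn' a
  induction n with
  | zero => rw [pow_zero, pow_zero, h_one, map_one, one_smul]; rfl
  | succ n ih =>
    rw [pow_succ, ← h_mul, map_mul, Module.End.mul_apply, hy1, map_smul, ih, smul_smul, pow_succ,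
      mul_comm]

/-- the multiplicative character of a functional -/
theorem exists_mulChar {ξ : V →ₗ[k] k} (hξ : ξ ≠ 0) (hu : ∀ s x, ξ (ρ (u s) x) = ξ x)
    (hh : ∀ a : Kˣ, ∃ c : k, ∀ x, ξ (ρ (h a) x) = c * ξ x) : ∃ μ : MulChar K k, Hw ρ ξ μ := by
  classical
  choose c hc using hh
  obtain ⟨y, hy⟩ : ∃ x, ξ x ≠ 0 := by
    by_contra hc
    push Not at hc
    exact hξ (LinearMap.ext hc)
  let f : Kˣ →* k :=
    { toFun := c
      map_one' := by
        have h1 := hc 1 y
        rw [h_one, map_one, Module.End.one_apply] at h1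
        exact mul_right_cancel₀ hy (by rw [← h1, one_mul])
      map_mul' := by
        intro a b
        have h1 := hc (a * b) y
        rw [← h_mul, map_mul, Module.End.mul_apply, hc, hc, ← mul_assoc] at h1
        exact (mul_right_cancel₀ hy h1).symm }
  refine ⟨MulChar.ofUnitHom f.toHomUnits, hξ, hu, ?_⟩
  intro a x
  rw [hc a x, MulChar.ofUnitHom_coe]
  rfl

/-- fixed functionals give highest weight functionals -/
theorem exists_hw [Fintype K] [IsAlgClosed k] [FiniteDimensional k V]
    (hE : fixU ρ.dual ≠ ⊥) : ∃ (ξ : V →ₗ[k] k) (μ : MulChar K k), Hw ρ ξ μ := by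
  obtain ⟨ξ, hξ, hu, hh⟩ := exists_eig hE
  have hu' : ∀ s x, ξ (ρ (u s) x) = ξ x := by
    intro s x
    have h1 := congrArg (fun f : Module.Dual k V => f (ρ (u s) x)) (hu s)
    simp only [Representation.dual_apply, Module.Dual.transpose_apply, LinearMap.comp_apply] at h1
    rw [← h1, ← Module.End.mul_apply, ← map_mul, inv_mul_cancel, map_one]
    rfl
  obtain ⟨μ, hμ⟩ := exists_mulChar (ρ := ρ) hξ hu' (by
    intro a
    obtain ⟨c, hc⟩ := hh a⁻¹
    refine ⟨c, fun x => ?_⟩
    have h1 := congrArg (fun f : Module.Dual k V => f x) hc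
    simp only [Representation.dual_apply, Module.Dual.transpose_apply, LinearMap.comp_apply,
      LinearMap.smul_apply, smul_eq_mul] at h1
    rw [← h1]
    congr 2
    have : (h a⁻¹)⁻¹ = h a := by
      rw [inv_eq_iff_mul_eq_one, h_mul, inv_mul_cancel, h_one]
    rw [this])
  exact ⟨ξ, μ, hμ⟩

end Pool.Agent.P8H59.UT
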