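import Pool.Agent.P8H59.UT.Basic

/-!
# Highest weight functionals of representations of `SL₂(K)`
-/

set_option autoImplicit false
set_option linter.all false

namespace Pool.Agent.P8H59.UT

open Matrix Representation

section irr

variable {G k V : Type} [Group G] [Field k] [AddCommGroup V] [Module k V] (ρ : Representation k G V)

/-- irreducibility in terms of invariant subspaces -/
theorem irr_iff : ρ.IsIrreducible ↔ Nontrivial V ∧
    ∀ W : Submodule k V, (∀ g, ∀ x ∈ W, ρ g x ∈ W) → W = ⊥ ∨ W = ⊤ := by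
  constructor
  · intro hr
    constructor
    · obtain ⟨a, b, hab⟩ := hr.toNontrivial
      by_contra hV
      rw [not_nontrivial_iff_subsingleton] at hV
      apply hab
      apply SetLike.ext
      intro x
      have hx : x = 0 := Subsingleton.elim _ _
      rw [hx]
      exact ⟨fun _ => b.toSubmodule.zero_mem, fun _ => a.toSubmodule.zero_mem⟩
    · intro W hW
      rcases hr.eq_bot_or_eq_top (⟨W, fun g x hx => hW g x hx⟩ : Subrepresentation ρ) with h | h
      · left
        have := congrArg Subrepresentation.toSubmodule h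
        exact this
      · right
        have := congrArg Subrepresentation.toSubmodule h
        exact this
  · rintro ⟨hV, hW⟩
    refine @IsSimpleOrder.mk _ _ _ ?_ ?_
    · refine ⟨⊥, ⊤, fun h => ?_⟩
      have := congrArg Subrepresentation.toSubmodule h
      exact bot_ne_top (α := Submodule k V) this
    · intro a
      rcases hW a.toSubmodule (fun g x hx => a.apply_mem_toSubmodule g hx) with h | h
      · left
        exact Subrepresentation.toSubmodule_injective h
      · right
        exact Subrepresentation.toSubmodule_injective h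

variable {ρ}

lemma span_orbit (hr : ρ.IsIrreducible) {x : V} (hx : x ≠ 0) :
    Submodule.span k (Set.range fun g : G => ρ g x) = ⊤ := by
  have hinv : ∀ g, ∀ y ∈ Submodule.span k (Set.range fun g : G => ρ g x),
      ρ g y ∈ Submodule.span k (Set.range fun g : G => ρ g x) := by
    intro g y hy
    induction hy using Submodule.span_induction with
    | mem y hy =>
      obtain ⟨g', rfl⟩ := hy
      refine Submodule.subset_span ⟨g * g', ?_⟩
      simp [map_mul]
    | zero => rw [map_zero]; exact Submodule.zero_mem _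
    | add a b _ _ ha hb => rw [map_add]; exact Submodule.add_mem _ ha hb
    | smul c a _ ha => rw [map_smul]; exact Submodule.smul_mem _ _ ha
  rcases ((irr_iff ρ).1 hr).2 _ hinv with h | h
  · exfalso
    apply hx
    have : x ∈ Submodule.span k (Set.range fun g : G => ρ g x) :=
      Submodule.subset_span ⟨1, by simp⟩
    rw [h] at this
    simpa using this
  · exact h

lemma eq_zero_of_forall (hr : ρ.IsIrreducible) {ξ : V →ₗ[k] k} (hξ : ξ ≠ 0) {x : V}
    (h : ∀ g, ξ (ρ g x) = 0) : x = 0 := by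
  by_contra hx
  apply hξ
  have hs := span_orbit hr hx
  ext y
  have hy : y ∈ Submodule.span k (Set.range fun g : G => ρ g x) := by rw [hs]; trivial
  induction hy using Submodule.span_induction with
  | mem y hy => obtain ⟨g, rfl⟩ := hy; simpa using h g
  | zero => simp
  | add a b _ _ ha hb => rw [map_add, ha, hb]; simp
  | smul c a _ ha => simp_all

/-- the matrix coefficients with respect to a functional -/
def coef (ρ : Representation k G V) (ξ : V →ₗ[k] k) : V →ₗ[k] (G → k) :=
  LinearMap.pi fun g => ξ.comp (ρ g)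

lemma coef_apply (ξ : V →ₗ[k] k) (x : V) (g : G) : coef ρ ξ x g = ξ (ρ g x) := rfl

lemma coef_injective (hr : ρ.IsIrreducible) {ξ : V →ₗ[k] k} (hξ : ξ ≠ 0) :
    Function.Injective (coef ρ ξ) := by
  rw [injective_iff_map_eq_zero]
  intro x hx
  exact eq_zero_of_forall hr hξ fun g => congrFun hx g

end irr

variable {K k V : Type} [Field K] [Field k] [AddCommGroup V] [Module k V]
  {ρ : Representation k (SL2 K) V}

/-- `ξ` is fixed by the upper unipotent elements, and the diagonal elements act on it by `μ` -/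
structure Hw (ρ : Representation k (SL2 K) V) (ξ : V →ₗ[k] k) (μ : MulChar K k) : Prop where
  ne : ξ ≠ 0
  u : ∀ s x, ξ (ρ (u s) x) = ξ x
  h : ∀ (a : Kˣ) x, ξ (ρ (h a) x) = μ a * ξ x

variable {ξ : V →ₗ[k] k} {μ : MulChar K k}

lemma Hw.upper (H : Hw ρ ξ μ) (g : SL2 K) (hg : g 1 0 = 0) (x : V) :
    ξ (ρ g x) = μ (g 0 0) * ξ x := by
  obtain ⟨a, ha⟩ := exists_unit_of_upper g hg
  rw [upper_eq g hg a ha, map_mul, Module.End.mul_apply, H.u, H.h]
  congr 2
  simp only [mul00]
  simp

lemma Hw.lower (H : Hw ρ ξ μ) (g : SL2 K) (hg : g 1 0 ≠ 0) {x : V} (hx : ∀ s, ρ (UT.u s) x = x) :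
    ξ (ρ g x) = μ⁻¹ (g 1 0) * ξ (ρ w x) := by
  have hc : ((Units.mk0 _ hg : Kˣ) : K) = g 1 0 := rfl
  rw [lower_eq g (Units.mk0 _ hg) hc, map_mul, Module.End.mul_apply, H.u, map_mul,
    Module.End.mul_apply, H.h, map_mul, Module.End.mul_apply, hx]
  congr 1
  rw [MulChar.inv_apply']
  congr 1
  simp [mul10, mul11]

lemma Hw.neg_one (H : Hw ρ ξ μ) (hneg : ∀ x, ρ (-1) x = -x) : μ (-1) = -1 := by
  obtain ⟨x, hx⟩ : ∃ x, ξ x ≠ 0 := by
    by_contra hc
    push Not at hc
    exact H.ne (LinearMap.ext hc)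
  have h1 := H.h (-1) x
  rw [h_neg_one, hneg, map_neg, Units.val_neg, Units.val_one] at h1
  have : (μ (-1) + 1) * ξ x = 0 := by linear_combination -h1
  rcases mul_eq_zero.1 this with h2 | h2
  · linear_combination h2
  · exact absurd h2 hx

lemma mu_neg (hμ : μ (-1) = -1) (c : K) : μ (-c) = -μ c := by
  rw [← neg_one_mul, map_mul, hμ, neg_one_mul]

lemma mu_ne (hμ : μ (-1) = -1) (hk : (2 : k) ≠ 0) (i : Kˣ) (hi : (i : K) ^ 2 = -1) :
    μ (i : K) ≠ μ ((i⁻¹ : Kˣ) : K) := by
  have h1 : ((i⁻¹ : Kˣ) : K) = -(i : K) := by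
    rw [Units.val_inv_eq_inv_val]
    rw [inv_eq_iff_eq_inv, eq_comm]
    apply inv_eq_of_mul_eq_one_left
    linear_combination -hi
  rw [h1, mu_neg hμ]
  intro hc
  have h2 : (2 : k) * μ (i : K) = 0 := by linear_combination hc
  rcases mul_eq_zero.1 h2 with h3 | h3
  · exact hk h3
  · exact (IsUnit.map μ i.isUnit).ne_zero h3

variable [Fintype K] [DecidableEq K]

/-- a vector with matrix coefficients `κ * μ⁻¹ (g₁₀)` -/
theorem exists_x1 (hr : ρ.IsIrreducible) (hneg : ∀ x, ρ (-1) x = -x) (hk : (2 : k) ≠ 0)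
    (i : Kˣ) (hi : (i : K) ^ 2 = -1) (H : Hw ρ ξ μ) {x : V} (hx0 : x ≠ 0)
    (hxu : ∀ s, ρ (UT.u s) x = x) (hxh : ∀ a : Kˣ, ∃ c : k, ρ (UT.h a) x = c • x) :
    ∃ (x₁ : V) (κ : k), κ ≠ 0 ∧ ∀ g, ξ (ρ g x₁) = κ * μ⁻¹ (g 1 0) := by
  have hμ := H.neg_one hneg
  have hne := mu_ne (μ := μ) hμ hk i hi
  by_cases hA : ξ (ρ w x) = 0
  · have hB : ξ x ≠ 0 := by
      intro hB
      apply hx0
      apply eq_zero_of_forall hr H.ne
      intro g
      by_cases hg : g 1 0 = 0
      · rw [H.upper g hg, hB, mul_zero]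
      · rw [H.lower g hg hxu, hA, mul_zero]
    have key : ∀ (g : SL2 K) (s : K), ξ (ρ g (ρ (UT.u s) (ρ w x))) =
        if g 1 0 * s + g 1 1 = 0 then -(ξ x) * μ⁻¹ (g 1 0) else 0 := by
      intro g s
      have h1 : ρ g (ρ (UT.u s) (ρ w x)) = ρ (g * (UT.u s * w)) x := by
        rw [map_mul, map_mul]; rfl
      have h10 : (g * (UT.u s * w) : SL2 K) 1 0 = g 1 0 * s + g 1 1 := by
        simp only [mul00, mul01, mul10, mul11]; simp
      have h11' : (g * (UT.u s * w) : SL2 K) 1 1 = - g 1 0 := by
        simp only [mul00, mul01, mul10, mul11]; simp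
      rw [h1]
      split_ifs with hs
      · rw [H.upper _ (by rw [h10, hs])]
        have hd := det_eq (g * (UT.u s * w))
        rw [h10, hs, mul_zero, sub_zero, h11'] at hd
        have h3 : (g * (UT.u s * w) : SL2 K) 0 0 = (- g 1 0)⁻¹ := eq_inv_of_mul_eq_one_left hd
        rw [h3, ← MulChar.inv_apply', mu_neg (μ := μ⁻¹)]
        · ring
        · rw [MulChar.inv_apply', inv_neg, inv_one, hμ]
      · rw [H.lower _ (by rw [h10]; exact hs) hxu, hA, mul_zero]
    refine ⟨∑ s : K, ρ (UT.u s) (ρ w x), -(ξ x), neg_ne_zero.2 hB, ?_⟩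
    intro g
    rw [map_sum, map_sum]
    simp only [key]
    by_cases hc : g 1 0 = 0
    · rw [hc]
      have hd := det_eq g
      have h11 : g 1 1 ≠ 0 := by
        intro h0
        rw [hc, h0] at hd
        simp at hd
      rw [MulChar.map_zero]
      simp [h11]
    · rw [Finset.sum_eq_single (-(g 1 1) / g 1 0)]
      · rw [if_pos]
        field_simp
        ring
      · intro s _ hs
        rw [if_neg]
        intro h0
        apply hs
        rw [eq_div_iff hc]
        linear_combination h0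
      · intro h0
        exact absurd (Finset.mem_univ _) h0
  · have hB : ξ x = 0 := by
      by_contra hB
      obtain ⟨c, hc⟩ := hxh i
      have h1 := H.h i x
      rw [hc, map_smul, smul_eq_mul] at h1
      have h2 : ξ (ρ w (ρ (UT.h i) x)) = μ ((i⁻¹ : Kˣ) : K) * ξ (ρ w x) := by
        rw [← H.h]
        have : ρ w (ρ (UT.h i) x) = ρ (w * UT.h i) x := by rw [map_mul]; rfl
        rw [this, w_h, map_mul]
        rfl
      rw [hc, map_smul, map_smul, smul_eq_mul] at h2
      exact hne ((mul_right_cancel₀ hB h1).symm.trans (mul_right_cancel₀ hA h2))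
    refine ⟨x, ξ (ρ w x), hA, ?_⟩
    intro g
    by_cases hg : g 1 0 = 0
    · rw [H.upper g hg, hB, hg, MulChar.map_zero, mul_zero, mul_zero]
    · rw [H.lower g hg hxu, mul_comm]

end Pool.Agent.P8H59.UT
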