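import Pool.Agent.P8H59.UT.Residue

/-!
# The faithful 3-block of `SL₂(9)` is not unitriangular
-/

set_option autoImplicit false
set_option linter.all false

noncomputable section

namespace Pool.Agent.P8H59.UT

open Representation Finset

variable {K : Type} [Field K] [Fintype K] [DecidableEq K]

/-- an odd character with values in the algebraic integers -/
theorem exists_odd (h2 : (-1 : K) ≠ 1) : ∃ μ : MulChar K AI, μ (-1) = -1 := by
  obtain ⟨χ, hχ⟩ := MulChar.exists_apply_ne_one_of_hasEnoughRootsOfUnity K ℂ h2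
  have hsq : χ (-1) ^ 2 = 1 := by
    rw [← map_pow, neg_one_sq, map_one]
  have hχ1 : χ (-1) = -1 := (sq_eq_one_iff.1 hsq).resolve_left hχ
  have hint : ∀ a : Kˣ, IsIntegral ℤ (χ (a : K)) := by
    intro a
    refine IsIntegral.of_pow (Fintype.card_pos (α := Kˣ)) ?_
    rw [← map_pow, ← Units.val_pow_eq_pow_val, pow_card_eq_one, Units.val_one, map_one]
    exact isIntegral_one
  let f : Kˣ →* AI :=
    { toFun := fun a => ⟨χ (a : K), hint a⟩
      map_one' := by
        apply Subtype.ext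
        simp
      map_mul' := by
        intro a b
        apply Subtype.ext
        simp }
  refine ⟨MulChar.ofUnitHom f.toHomUnits, ?_⟩
  have h1 : ((-1 : Kˣ) : K) = -1 := by simp
  rw [← h1, MulChar.ofUnitHom_coe]
  apply Subtype.ext
  simp only [MonoidHom.coe_toHomUnits]
  show χ ((-1 : Kˣ) : K) = _
  rw [h1, hχ1]
  simp

section acts

variable {k : Type} [Field k]

/-- the class sums act on the principal series -/
lemma acts_ps (μ : MulChar K k) (hμ : μ (-1) = -1) (h2 : (2 : k) ≠ 0) (i : Kˣ)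
    (hi : (i : K) ^ 2 = -1) (hr : (psRep μ).IsIrreducible) (g : SL2 K) :
    ClassActs (⟨PS μ, psRep μ, hr⟩ : IrrRep (SL2 K) k) g (cval μ g) := by
  classical
  unfold ClassActs
  apply LinearMap.ext
  intro f
  apply Subtype.ext
  have h3 := csum_eq hμ (fun y hy => (mul_eq_zero.1 hy).resolve_left h2) i hi g f.2
  rw [LinearMap.sum_apply, AddSubmonoidClass.coe_finsetSum]
  unfold csum at h3
  rw [LinearMap.sum_apply] at h3
  convert h3 using 2
  · ext x; simp
  · rfl
  · rfl

/-- the class sums act on subrepresentations of the principal series -/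
lemma acts_sub (μ : MulChar K k) (hμ : μ (-1) = -1) (h2 : (2 : k) ≠ 0) (i : Kˣ)
    (hi : (i : K) ^ 2 = -1) (Y : IrrRep (SL2 K) k) (ι : Y.V →ₗ[k] PS μ) (hι : Function.Injective ι)
    (hc : ∀ g y, ι (Y.ρ g y) = psRep μ g (ι y)) (g : SL2 K) : ClassActs Y g (cval μ g) := by
  classical
  unfold ClassActs
  apply LinearMap.ext
  intro y
  apply hι
  apply Subtype.ext
  have h3 := csum_eq hμ (fun y hy => (mul_eq_zero.1 hy).resolve_left h2) i hi g (ι y).2
  unfold csum at h3
  rw [LinearMap.sum_apply] at h3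
  rw [LinearMap.sum_apply, map_sum, AddSubmonoidClass.coe_finsetSum]
  simp only [hc]
  rw [LinearMap.smul_apply, map_smul]
  convert h3 using 2
  · ext x; simp
  · rfl
  · rfl

/-- the action of `-1` -/
lemma neg_acts {Y : IrrRep (SL2 K) k} {c : k} (hY : ClassActs Y (-1) c) (y : Y.V) :
    Y.ρ (-1) y = c • y := by
  classical
  unfold ClassActs at hY
  have : Finset.univ.filter (fun x : SL2 K => IsConj (-1) x) = {-1} := by
    ext x
    rw [Finset.mem_filter, Finset.mem_singleton, isConj_iff]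
    constructor
    · rintro ⟨-, c, hc⟩
      rw [← hc]
      simp
    · rintro rfl
      exact ⟨Finset.mem_univ _, 1, by simp⟩
  have h2 := congrArg (fun f : Y.V →ₗ[k] Y.V => f y) hY
  simp only [LinearMap.smul_apply, Module.End.one_apply] at h2
  rw [← h2]
  congr 1
  rw [← Finset.sum_singleton (fun x => Y.ρ x) (-1)]
  refine Finset.sum_congr ?_ fun _ _ => rfl
  rw [← this]
  ext x; simp

lemma nontrivial_V {G : Type} [Group G] (Y : IrrRep G k) : Nontrivial Y.V :=
  ((irr_iff Y.ρ).1 Y.irr).1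

end acts

lemma exists_emb {k : Type} [Field k] [IsAlgClosed k] [CharP K 3] [CharP k 3] :
    Nonempty (K →+* k) := by
  haveI : Fact (Nat.Prime 3) := ⟨by norm_num⟩
  letI : Algebra (ZMod 3) K := ZMod.algebra K 3
  letI : Algebra (ZMod 3) k := ZMod.algebra k 3
  haveI : Algebra.IsAlgebraic (ZMod 3) K := inferInstance
  exact ⟨(IsAlgClosed.lift : K →ₐ[ZMod 3] k).toRingHom⟩

variable (M : Ideal AI) [M.IsMaximal]

/-- **Main theorem.** The block of an odd principal series representation of `SL₂(9)` is not unitriangular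
for `ℓ = 3`. -/
theorem main (hcard : Fintype.card K = 9) [CharP K 3] (h3 : (3 : AI) ∈ M) :
    ∃ X₀ : IrrRep (SL2 K) ℂ, ¬ Unitriangular M 3 X₀ := by
  classical
  have h3' : ((3 : ℕ) : AI) ∈ M := by exact_mod_cast h3
  haveI : Fact (Nat.Prime 3) := ⟨by norm_num⟩
  haveI : CharP (AI ⧸ M) 3 := charP_quot h3'
  -- an embedding of `K` into the residue field
  obtain ⟨σ⟩ : Nonempty (K →+* (AI ⧸ M)) := exists_emb
  obtain ⟨a0, ha0, hp, ha4⟩ := exists_gen hcard
  have hi : ((a0 ^ 2 : Kˣ) : K) ^ 2 = -1 := by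
    rw [Units.val_pow_eq_pow_val, ← pow_mul]; exact ha4
  have hK2 : (-1 : K) ≠ 1 := by
    intro h
    have h2 : ((2 : ℕ) : K) = 0 := by
      push_cast
      linear_combination -h
    have := (CharP.cast_eq_zero_iff K 3 2).1 h2
    omega
  have hF2 : (2 : AI ⧸ M) ≠ 0 := by
    intro h
    have h2 : ((2 : ℕ) : AI ⧸ M) = 0 := by exact_mod_cast h
    have := (CharP.cast_eq_zero_iff (AI ⧸ M) 3 2).1 h2
    omega
  obtain ⟨μ, hμ⟩ := exists_odd hK2
  let μC : MulChar K ℂ := μ.ringHomComp (algebraMap AI ℂ)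
  have hμC : μC (-1) = -1 := by
    simp only [μC, MulChar.ringHomComp_apply, hμ, map_neg, map_one]
  let μF : MulChar K (AI ⧸ M) := μ.ringHomComp (Ideal.Quotient.mk M)
  have hμF : μF (-1) = -1 := by
    simp only [μF, MulChar.ringHomComp_apply, hμ, map_neg, map_one]
  let X₀ : IrrRep (SL2 K) ℂ := ⟨PS μC, psRep μC, psRep_irr hcard μC hμC (a0 ^ 2) hi⟩
  have hX₀ : ∀ g, ClassActs X₀ g ((cval μ g : AI) : ℂ) := by
    intro g
    have h1 := acts_ps μC hμC (by norm_num) (a0 ^ 2) hi (psRep_irr hcard μC hμC (a0 ^ 2) hi) g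
    have h2 : (cval μC g) = ((cval μ g : AI) : ℂ) := (cval_map (algebraMap AI ℂ) (fun a => rfl) g).symm
    rw [← h2]
    exact h1
  refine ⟨X₀, ?_⟩
  rintro ⟨n, χ, φ, d, hχinj, hχ, hφinj, hφ, hd, hd1, hd0⟩
  -- the block contains a Brauer character
  haveI : Nontrivial (PS μF) := ⟨⟨f1 μF, f1_mem μF⟩, 0, fun h => f1_ne μF (congrArg Subtype.val h)⟩
  obtain ⟨Y₁, ι, hι, hc⟩ := exists_irr_sub _ (PS μF) (psRep μF) rfl
  obtain ⟨φ₁, hφ₁⟩ := exists_brauer (ℓ := 3) Y₁
  have hmem : φ₁ ∈ IBrB M 3 X₀ := by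
    refine ⟨Y₁, hφ₁, fun g => ⟨cval μ g, hX₀ g, ?_⟩⟩
    have h1 := acts_sub μF hμF hF2 (a0 ^ 2) hi Y₁ ι hι hc g
    have h2 : cval μF g = Ideal.Quotient.mk M (cval μ g) :=
      (cval_map (Ideal.Quotient.mk M) (fun a => rfl) g).symm
    rw [← h2]
    exact h1
  have hn : 0 < n := by
    rw [← hφ] at hmem
    obtain ⟨j, -⟩ := hmem
    exact Fin.pos j
  -- the first row
  let z : Fin n := ⟨0, hn⟩
  have hrow : ∀ g : Reg 3 (SL2 K), χ z g.1 = φ z g := by
    intro g
    rw [hd z g, Finset.sum_eq_single z]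
    · rw [hd1, Nat.cast_one, one_mul]
    · intro j _ hj
      have : z < j := lt_of_le_of_ne (Nat.zero_le _) (Ne.symm hj)
      rw [hd0 z j this, Nat.cast_zero, zero_mul]
    · intro h
      exact absurd (Finset.mem_univ _) h
  have hone : ¬ 3 ∣ orderOf (1 : SL2 K) := by
    rw [orderOf_one]; norm_num
  obtain ⟨X, hX, hXb⟩ := hχ z
  have hφz : φ z ∈ IBrB M 3 X₀ := by rw [← hφ]; exact ⟨z, rfl⟩
  obtain ⟨Y, hYb, hY⟩ := hφz
  -- `-1` acts as `-1` on `X₀`
  have hX₀neg : ∀ c : ℂ, ClassActs X₀ (-1) c → c = -1 := by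
    intro c hc
    have h1 : ∀ y : X₀.V, X₀.ρ (-1) y = c • y := neg_acts hc
    have h2 : ∀ y : X₀.V, X₀.ρ (-1) y = -y := psRep_neg μC hμC
    haveI := nontrivial_V X₀
    obtain ⟨y, hy⟩ := exists_ne (0 : X₀.V)
    have h3 : (c + 1) • y = 0 := by
      rw [add_smul, one_smul, ← h1, h2, neg_add_cancel]
    rcases smul_eq_zero.1 h3 with h4 | h4
    · linear_combination h4
    · exact absurd h4 hy
  have hneg_val : ∀ a : AI, ClassActs X₀ (-1) (a : ℂ) → a = -1 := by
    intro a ha
    apply Subtype.ext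
    have := hX₀neg _ ha
    simpa using this
  -- `-1` acts as `-1` on `X`
  have hXneg : ∀ y : X.V, X.ρ (-1) y = -y := by
    obtain ⟨a, b, ha, hb, hab⟩ := hXb (-1)
    have ha' := hneg_val a ha
    have h1 : ∀ y : X.V, X.ρ (-1) y = (b : ℂ) • y := neg_acts hb
    haveI := nontrivial_V X
    obtain ⟨y, hy⟩ := exists_ne (0 : X.V)
    have h2 : (b : ℂ) ^ 2 = 1 := by
      have h3 : X.ρ (-1) (X.ρ (-1) y) = y := by
        rw [← Module.End.mul_apply, ← map_mul]
        simp
      rw [h1 (X.ρ (-1) y), h1 y, smul_smul] at h3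
      have h4 : ((b : ℂ) * (b : ℂ) - 1) • y = 0 := by rw [sub_smul, one_smul, h3, sub_self]
      rcases smul_eq_zero.1 h4 with h5 | h5
      · linear_combination h5
      · exact absurd h5 hy
    rcases sq_eq_one_iff.1 h2 with h3 | h3
    · exfalso
      have hb1 : b = 1 := Subtype.ext (by simpa using h3)
      rw [ha', hb1] at hab
      have h4 : (1 : AI) ∈ M := by
        have h5 : (3 : AI) + (-1 - 1) ∈ M := M.add_mem h3' hab
        have h6 : (3 : AI) + (-1 - 1) = 1 := by norm_num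
        rwa [h6] at h5
      exact (Ideal.ne_top_iff_one M).1 (Ideal.IsMaximal.ne_top inferInstance) h4
    · intro y
      rw [h1, h3, neg_one_smul]
  -- `-1` acts as `-1` on `Y`
  have hYneg : ∀ y : Y.V, Y.ρ (-1) y = -y := by
    obtain ⟨a, ha, hb⟩ := hY (-1)
    have ha' := hneg_val a ha
    intro y
    rw [neg_acts hb, ha', map_neg, map_one, neg_one_smul]
  -- dimensions
  have hdim : (Module.finrank ℂ X.V : ℂ) = Module.finrank (AI ⧸ M) Y.V := by
    have h1 := hrow ⟨1, hone⟩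
    rw [hX, brauer_one h3' hYb hone] at h1
    rw [← h1]
    exact (Representation.char_one X.ρ).symm
  have hdim' : Module.finrank ℂ X.V = Module.finrank (AI ⧸ M) Y.V := by exact_mod_cast hdim
  have hXd := finrank_char0 hcard X.irr hXneg
  have hYd := finrank_char3 hcard σ Y.irr hYneg
  rw [← hdim'] at hYd
  rcases hYd with h | h
  · exact hXd.1 h
  · exact hXd.2 h

end Pool.Agent.P8H59.UT
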