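import Pool.Agent.P8H59.UT.Dims
import Pool.Agent.P8H59.UT.Defs

/-!
# Principal series of `SL₂(K)` over commutative rings, class sums
-/

set_option autoImplicit false
set_option linter.all false

noncomputable section

namespace Pool.Agent.P8H59.UT

open Matrix Representation Finset

variable {K A : Type} [Field K] [Fintype K] [DecidableEq K] [CommRing A]

/-- functions with `f (u h g) = μ (h) f (g)` -/
def PS (μ : MulChar K A) : Submodule A (SL2 K → A) where
  carrier := {f | ∀ (s : K) (a : Kˣ) g, f (u s * (h a * g)) = μ a * f g}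
  add_mem' := by
    intro f f' hf hf' s a g
    simp only [Pi.add_apply, hf s a g, hf' s a g, mul_add]
  zero_mem' := by intro s a g; simp
  smul_mem' := by
    intro c f hf s a g
    simp only [Pi.smul_apply, smul_eq_mul, hf s a g]
    ring

/-- right translation -/
def rt (g : SL2 K) : (SL2 K → A) →ₗ[A] (SL2 K → A) where
  toFun f x := f (x * g)
  map_add' f f' := rfl
  map_smul' c f := rfl

lemma rt_apply (g : SL2 K) (f : SL2 K → A) (x : SL2 K) : rt g f x = f (x * g) := rfl

lemma rt_mul (g g' : SL2 K) (f : SL2 K → A) : rt (g * g') f = rt g (rt g' f) := by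
  funext x
  simp only [rt_apply, mul_assoc]

lemma rt_one (f : SL2 K → A) : rt (1 : SL2 K) f = f := by
  funext x
  simp only [rt_apply, mul_one]

lemma rt_mem {μ : MulChar K A} (g : SL2 K) {f : SL2 K → A} (hf : f ∈ PS μ) : rt g f ∈ PS μ := by
  intro s a x
  have := hf s a (x * g)
  simp only [rt_apply]
  rw [← this]
  simp only [mul_assoc]

lemma PS_u {μ : MulChar K A} {f : SL2 K → A} (hf : f ∈ PS μ) (s : K) (g : SL2 K) :
    f (u s * g) = f g := by
  have := hf s 1 g
  rwa [h_one, one_mul, Units.val_one, map_one, one_mul] at this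

lemma PS_h {μ : MulChar K A} {f : SL2 K → A} (hf : f ∈ PS μ) (a : Kˣ) (g : SL2 K) :
    f (h a * g) = μ a * f g := by
  have := hf 0 a g
  rwa [u_zero, one_mul] at this

/-- representatives of the left cosets -/
def rep (o : Option K) : SL2 K := o.elim 1 fun s => w * u s

@[simp] lemma rep_none : rep (none : Option K) = 1 := rfl
@[simp] lemma rep_some (s : K) : rep (some s) = w * u s := rfl

lemma PS_ext {μ : MulChar K A} {f f' : SL2 K → A} (hf : f ∈ PS μ) (hf' : f' ∈ PS μ)
    (h0 : ∀ o, f (rep o) = f' (rep o)) : f = f' := by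
  funext g
  by_cases hg : g 1 0 = 0
  · obtain ⟨a, ha⟩ := exists_unit_of_upper g hg
    rw [upper_eq g hg a ha]
    have h1 := hf (g 0 0 * g 0 1) a 1
    have h2 := hf' (g 0 0 * g 0 1) a 1
    rw [mul_one] at h1 h2
    rw [h1, h2]
    have := h0 none
    rw [rep_none] at this
    rw [this]
  · have hc : ((Units.mk0 _ hg : Kˣ) : K) = g 1 0 := rfl
    rw [lower_eq g _ hc, hf, hf']
    have := h0 (some (g 1 1 / g 1 0))
    rw [rep_some] at this
    rw [this]

/-- the function supported on the upper triangular matrices -/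
def f1 (μ : MulChar K A) : SL2 K → A := fun g => if g 1 0 = 0 then μ (g 0 0) else 0

lemma f1_mem (μ : MulChar K A) : f1 μ ∈ PS μ := by
  intro s a g
  have h10 : (u s * (h a * g) : SL2 K) 1 0 = ((a⁻¹ : Kˣ) : K) * g 1 0 := by
    simp only [mul00, mul01, mul10, mul11]; simp
  have h00 : g 1 0 = 0 → (u s * (h a * g) : SL2 K) 0 0 = (a : K) * g 0 0 := by
    intro h0
    simp only [mul00, mul01, mul10, mul11]; simp [h0]
  unfold f1
  by_cases h0 : g 1 0 = 0
  · rw [if_pos (by rw [h10, h0, mul_zero]), if_pos h0, h00 h0, map_mul]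
  · rw [if_neg (by rw [h10]; exact mul_ne_zero (Units.ne_zero _) h0), if_neg h0, mul_zero]

lemma f1_one (μ : MulChar K A) : f1 μ 1 = 1 := by
  unfold f1
  simp

lemma f1_right_u (μ : MulChar K A) (s : K) : rt (u s) (f1 μ) = f1 μ := by
  funext g
  rw [rt_apply]
  unfold f1
  have h10 : (g * u s : SL2 K) 1 0 = g 1 0 := by simp only [mul10]; simp
  have h00 : (g * u s : SL2 K) 0 0 = g 0 0 := by simp only [mul00]; simp
  rw [h10, h00]

lemma f1_right_h (μ : MulChar K A) (a : Kˣ) : rt (h a) (f1 μ) = μ a • f1 μ := by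
  funext g
  rw [rt_apply, Pi.smul_apply, smul_eq_mul]
  unfold f1
  have h10 : (g * h a : SL2 K) 1 0 = g 1 0 * a := by simp only [mul10]; simp
  have h00 : (g * h a : SL2 K) 0 0 = g 0 0 * a := by simp only [mul00]; simp
  rw [h10, h00]
  by_cases h0 : g 1 0 = 0
  · rw [if_pos (by rw [h0, zero_mul]), if_pos h0, map_mul, mul_comm]
  · rw [if_neg (mul_ne_zero h0 a.ne_zero), if_neg h0, mul_zero]

lemma rep_low (o o' : Option K) : (rep o * (rep o')⁻¹ : SL2 K) 1 0 = 0 ↔ o = o' := by
  constructor
  · intro h0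
    have hlow : ∀ g g' : SL2 K, (g * g'⁻¹ : SL2 K) 1 0 = 0 → g 1 0 * g' 1 1 = g 1 1 * g' 1 0 := by
      intro g g' h
      rw [mul10] at h
      have e1 : (g'⁻¹ : SL2 K) 0 0 = g' 1 1 := by
        rw [Matrix.SpecialLinearGroup.SL2_inv_expl]; rfl
      have e2 : (g'⁻¹ : SL2 K) 1 0 = - g' 1 0 := by
        rw [Matrix.SpecialLinearGroup.SL2_inv_expl]; rfl
      rw [e1, e2] at h
      linear_combination h
    have h1 := hlow _ _ h0
    cases o with
    | none =>
      cases o' with
      | none => rfl
      | some t =>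
        simp only [rep_none, rep_some, mul10, mul11] at h1
        simp at h1
    | some s =>
      cases o' with
      | none =>
        simp only [rep_none, rep_some, mul10, mul11] at h1
        simp at h1
      | some t =>
        simp only [rep_none, rep_some, mul10, mul11] at h1
        simp at h1
        rw [h1]
  · rintro rfl
    rw [mul_inv_cancel]
    simp

lemma f1_rep (μ : MulChar K A) (o o' : Option K) :
    rt (rep o')⁻¹ (f1 μ) (rep o) = if o = o' then 1 else 0 := by
  rw [rt_apply]
  by_cases h0 : o = o'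
  · subst h0
    rw [if_pos rfl, mul_inv_cancel, f1_one]
  · rw [if_neg h0]
    unfold f1
    rw [if_neg (fun h => h0 ((rep_low o o').1 h))]

/-- every element is a combination of translates of `f1` -/
lemma PS_expand {μ : MulChar K A} {f : SL2 K → A} (hf : f ∈ PS μ) :
    f = ∑ o : Option K, f (rep o) • rt (rep o)⁻¹ (f1 μ) := by
  apply PS_ext hf
  · exact Submodule.sum_mem _ fun o _ => Submodule.smul_mem _ _ (rt_mem _ (f1_mem μ))
  · intro o
    rw [Finset.sum_apply]
    simp only [Pi.smul_apply, f1_rep, smul_eq_mul, mul_ite, mul_one, mul_zero]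
    rw [Finset.sum_ite_eq]
    simp

/-- functions which behave like `f1` under right translations are multiples of `f1` -/
lemma eq_smul_f1 {μ : MulChar K A} (hμ : μ (-1) = -1) (h2 : ∀ y : A, 2 * y = 0 → y = 0)
    (i : Kˣ) (hi : (i : K) ^ 2 = -1) {f : SL2 K → A} (hf : f ∈ PS μ)
    (hu : ∀ s, rt (u s) f = f) (hh : ∀ a : Kˣ, rt (h a) f = μ a • f) : f = f 1 • f1 μ := by
  have hw : f w = 0 := by
    have h1 := congrFun (hh i) w
    rw [rt_apply, w_h, PS_h hf, Pi.smul_apply, smul_eq_mul] at h1
    have h3 : ((i⁻¹ : Kˣ) : K) = -(i : K) := by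
      rw [Units.val_inv_eq_inv_val, inv_eq_iff_eq_inv, eq_comm]
      apply inv_eq_of_mul_eq_one_left
      linear_combination -hi
    have h4 : μ (((i⁻¹ : Kˣ) : K)) = - μ (i : K) := by
      rw [h3, ← neg_one_mul, map_mul, hμ, neg_one_mul]
    rw [h4] at h1
    have h5 : 2 * (μ (i : K) * f w) = 0 := by linear_combination -h1
    have h6 := h2 _ h5
    exact (IsUnit.map μ i.isUnit).mul_right_eq_zero.1 h6
  apply PS_ext hf (Submodule.smul_mem _ _ (f1_mem μ))
  intro o
  cases o with
  | none => rw [rep_none, Pi.smul_apply, f1_one, smul_eq_mul, mul_one]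
  | some s =>
    rw [rep_some]
    have h1 := congrFun (hu s) w
    have h2 := congrFun (f1_right_u μ s) w
    rw [rt_apply] at h1 h2
    rw [h1, hw, Pi.smul_apply, h2]
    unfold f1
    simp

open Classical in
/-- the class sum on functions -/
def csum (g : SL2 K) : (SL2 K → A) →ₗ[A] (SL2 K → A) :=
  ∑ x ∈ Finset.univ.filter (fun x => IsConj g x), rt x

lemma csum_comm (g y : SL2 K) (f : SL2 K → A) : csum g (rt y f) = rt y (csum g f) := by
  classical
  unfold csum
  rw [LinearMap.sum_apply, LinearMap.sum_apply, map_sum]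
  refine Finset.sum_bij (fun x _ => y⁻¹ * x * y) ?_ ?_ ?_ ?_
  · intro x hx
    rw [Finset.mem_filter] at hx ⊢
    refine ⟨Finset.mem_univ _, hx.2.trans ?_⟩
    rw [isConj_iff]
    exact ⟨y⁻¹, by rw [inv_inv]⟩
  · intro x _ x' _ hxx
    simpa using hxx
  · intro x hx
    rw [Finset.mem_filter] at hx
    refine ⟨y * x * y⁻¹, ?_, by group⟩
    rw [Finset.mem_filter]
    refine ⟨Finset.mem_univ _, hx.2.trans ?_⟩
    rw [isConj_iff]
    exact ⟨y, rfl⟩
  · intro x _
    rw [← rt_mul, ← rt_mul]
    congr 2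
    group

open Classical in
/-- the scalar by which the class sum acts -/
def cval (μ : MulChar K A) (g : SL2 K) : A :=
  ∑ x ∈ Finset.univ.filter (fun x => IsConj g x), f1 μ x

/-- the class sums act on the principal series as scalars -/
theorem csum_eq {μ : MulChar K A} (hμ : μ (-1) = -1) (h2 : ∀ y : A, 2 * y = 0 → y = 0)
    (i : Kˣ) (hi : (i : K) ^ 2 = -1) (g : SL2 K) {f : SL2 K → A} (hf : f ∈ PS μ) :
    csum g f = cval μ g • f := by
  classical
  have hmem : csum g (f1 μ) ∈ PS μ := by
    unfold csum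
    rw [LinearMap.sum_apply]
    exact Submodule.sum_mem _ fun x _ => rt_mem _ (f1_mem μ)
  have h1 : csum g (f1 μ) = (csum g (f1 μ)) 1 • f1 μ := by
    apply eq_smul_f1 hμ h2 i hi hmem
    · intro s
      rw [← csum_comm, f1_right_u]
    · intro a
      rw [← csum_comm, f1_right_h, map_smul]
  have h3 : (csum g (f1 μ)) 1 = cval μ g := by
    unfold csum cval
    rw [LinearMap.sum_apply, Finset.sum_apply]
    refine Finset.sum_congr rfl fun x _ => ?_
    rw [rt_apply, one_mul]
  rw [h3] at h1
  conv_lhs => rw [PS_expand hf]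
  conv_rhs => rw [PS_expand hf]
  rw [map_sum, Finset.smul_sum]
  refine Finset.sum_congr rfl fun o _ => ?_
  rw [map_smul, csum_comm, h1, map_smul, smul_comm]

/-- the values under ring homomorphisms -/
lemma cval_map {B : Type} [CommRing B] (φ : A →+* B) {μ : MulChar K A} {ν : MulChar K B}
    (hφ : ∀ a, φ (μ a) = ν a) (g : SL2 K) : φ (cval μ g) = cval ν g := by
  classical
  unfold cval
  rw [map_sum]
  refine Finset.sum_congr rfl fun x _ => ?_
  unfold f1
  split_ifs
  · exact hφ _
  · exact map_zero _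

end Pool.Agent.P8H59.UT
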