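import Pool.Agent.P8H59.UT.PS

/-!
# The principal series representations; irreducibility in characteristic 0
-/

set_option autoImplicit false
set_option linter.all false

noncomputable section

namespace Pool.Agent.P8H59.UT

open Matrix Representation Finset

variable {K k : Type} [Field K] [Fintype K] [DecidableEq K] [Field k]

/-- the principal series representation -/
def psRep (μ : MulChar K k) : Representation k (SL2 K) (PS μ) where
  toFun g := (rt g).restrict fun f hf => rt_mem g hf
  map_one' := by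
    ext f : 1
    apply Subtype.ext
    exact rt_one f.1
  map_mul' g g' := by
    ext f : 1
    apply Subtype.ext
    exact rt_mul g g' f.1

lemma psRep_coe (μ : MulChar K k) (g : SL2 K) (f : PS μ) : ((psRep μ g f : PS μ) : SL2 K → k) = rt g f.1 := rfl

instance (μ : MulChar K k) : FiniteDimensional k (PS μ) := inferInstance

lemma f1_ne (μ : MulChar K k) : f1 μ ≠ 0 := by
  intro h
  have := congrFun h 1
  rw [f1_one] at this
  exact one_ne_zero this

lemma psRep_neg (μ : MulChar K k) (hμ : μ (-1) = -1) (f : PS μ) : psRep μ (-1) f = -f := by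
  apply Subtype.ext
  rw [psRep_coe]
  funext x
  rw [rt_apply]
  have h1 : x * (-1 : SL2 K) = h (-1 : Kˣ) * x := by
    rw [h_neg_one]; simp
  rw [h1, PS_h f.2]
  simp [hμ]

/-- irreducibility in characteristic `0` -/
theorem psRep_irr (hcard : Fintype.card K = 9) (μ : MulChar K ℂ) (hμ : μ (-1) = -1) (i : Kˣ)
    (hi : (i : K) ^ 2 = -1) : (psRep μ).IsIrreducible := by
  classical
  rw [irr_iff]
  refine ⟨⟨⟨⟨f1 μ, f1_mem μ⟩, 0, fun h => f1_ne μ (congrArg Subtype.val h)⟩⟩, ?_⟩
  intro W hW
  by_cases hbot : W = ⊥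
  · exact Or.inl hbot
  right
  obtain ⟨f, hfW, hf0⟩ := (Submodule.ne_bot_iff W).1 hbot
  -- translate so that the value at `1` is nonzero
  obtain ⟨g, hg⟩ : ∃ g, f.1 g ≠ 0 := by
    by_contra hc
    push Not at hc
    exact hf0 (Subtype.ext (funext hc))
  let f' : PS μ := psRep μ g f
  have hf'W : f' ∈ W := hW g f hfW
  have hf'1 : f'.1 1 ≠ 0 := by
    have : f'.1 1 = f.1 g := by
      simp only [f']
      rw [psRep_coe, rt_apply, one_mul]
    rw [this]
    exact hg
  let x : PS μ := ∑ a : Kˣ, ∑ s : K, μ⁻¹ (a : K) • psRep μ (h a * u s) f'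
  have hxW : x ∈ W := Submodule.sum_mem _ fun a _ => Submodule.sum_mem _ fun s _ =>
    Submodule.smul_mem _ _ (hW _ _ hf'W)
  have hxval : ∀ y, x.1 y = ∑ a : Kˣ, ∑ s : K, μ⁻¹ (a : K) * f'.1 (y * (h a * u s)) := by
    intro y
    simp only [x]
    rw [AddSubmonoidClass.coe_finsetSum, Finset.sum_apply]
    refine Finset.sum_congr rfl fun a _ => ?_
    rw [AddSubmonoidClass.coe_finsetSum, Finset.sum_apply]
    rfl
  have hinv : ∀ a : Kˣ, μ⁻¹ (a : K) * μ (a : K) = 1 := by
    intro a
    rw [← MulChar.mul_apply, MulChar.inv_mul, MulChar.one_apply_coe]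
  have hx1 : x.1 1 = 72 * f'.1 1 := by
    rw [hxval]
    have : ∀ (a : Kˣ) (s : K), μ⁻¹ (a : K) * f'.1 (1 * (h a * u s)) = f'.1 1 := by
      intro a s
      rw [one_mul, PS_h f'.2, ← mul_assoc, hinv, one_mul]
      have := PS_u f'.2 s 1
      rwa [mul_one] at this
    simp only [this, Finset.sum_const, Finset.card_univ, Fintype.card_units, hcard, nsmul_eq_mul]
    push_cast
    ring
  have hxw : ∀ t, x.1 (w * u t) = 0 := by
    intro t
    rw [hxval]
    let S : ℂ := ∑ s : K, f'.1 (w * u s)
    have h1 : ∀ a : Kˣ, ∑ s : K, μ⁻¹ (a : K) * f'.1 (w * u t * (h a * u s)) =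
        (μ⁻¹ * μ⁻¹) (a : K) * S := by
      intro a
      rw [← Finset.mul_sum, MulChar.mul_apply, mul_assoc]
      congr 1
      have h2 : ∀ s : K, f'.1 (w * u t * (h a * u s)) =
          μ⁻¹ (a : K) * f'.1 (w * u ((a : K)⁻¹ ^ 2 * t + s)) := by
        intro s
        have h3 : u t * h a = h a * u ((a : K)⁻¹ ^ 2 * t) := by
          rw [h_u]
          congr 2
          have := a.ne_zero
          field_simp
        have h4 : w * u t * (h a * u s) = h a⁻¹ * (w * u ((a : K)⁻¹ ^ 2 * t + s)) := by
          rw [← u_mul]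
          calc w * u t * (h a * u s) = w * (u t * h a) * u s := by group
            _ = w * (h a * u ((a : K)⁻¹ ^ 2 * t)) * u s := by rw [h3]
            _ = (w * h a) * (u ((a : K)⁻¹ ^ 2 * t) * u s) := by group
            _ = (h a⁻¹ * w) * (u ((a : K)⁻¹ ^ 2 * t) * u s) := by rw [w_h]
            _ = _ := by group
        rw [h4, PS_h f'.2, MulChar.inv_apply', Units.val_inv_eq_inv_val]
      simp only [h2]
      rw [← Finset.mul_sum]
      congr 1
      exact Fintype.sum_equiv (Equiv.addLeft ((a : K)⁻¹ ^ 2 * t)) _ _ fun s => rfl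
    simp only [h1]
    rw [← Finset.sum_mul]
    have h5 : ∑ a : Kˣ, (μ⁻¹ * μ⁻¹) (a : K) = 0 := by
      have hne : (μ⁻¹ * μ⁻¹ : MulChar K ℂ) ≠ 1 := by
        intro h
        have h6 := congrArg (fun ν : MulChar K ℂ => ν (i : K)) h
        simp only [MulChar.mul_apply, MulChar.one_apply_coe] at h6
        rw [← map_mul, ← sq, hi, MulChar.inv_apply', inv_neg, inv_one, hμ] at h6
        norm_num at h6
      have h7 := MulChar.sum_eq_zero_of_ne_one hne
      rw [← h7, ← Finset.add_sum_erase _ _ (Finset.mem_univ (0 : K)), MulChar.map_zero, zero_add]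
      refine Finset.sum_bij (fun (a : Kˣ) _ => (a : K)) ?_ ?_ ?_ ?_
      · intro a _
        rw [Finset.mem_erase]
        exact ⟨a.ne_zero, Finset.mem_univ _⟩
      · intro a _ b _ hab
        exact Units.ext hab
      · intro b hb
        rw [Finset.mem_erase] at hb
        exact ⟨Units.mk0 b hb.1, Finset.mem_univ _, rfl⟩
      · intro a _
        rfl
    rw [h5, zero_mul]
  have hxf : x = (72 * f'.1 1) • (⟨f1 μ, f1_mem μ⟩ : PS μ) := by
    apply Subtype.ext
    apply PS_ext x.2 (Submodule.smul_mem _ _ (f1_mem μ))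
    intro o
    cases o with
    | none =>
      rw [rep_none, hx1]
      show _ = (72 * f'.1 1) * f1 μ 1
      rw [f1_one, mul_one]
    | some s =>
      rw [rep_some, hxw]
      show _ = (72 * f'.1 1) * f1 μ (w * u s)
      have : f1 μ (w * u s) = 0 := by
        unfold f1
        rw [if_neg]
        simp only [mul10]
        simp
      rw [this, mul_zero]
  have hf1W : (⟨f1 μ, f1_mem μ⟩ : PS μ) ∈ W := by
    have hne : (72 * f'.1 1) ≠ 0 := mul_ne_zero (by norm_num) hf'1
    have := W.smul_mem (72 * f'.1 1)⁻¹ hxW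
    rw [hxf, smul_smul, inv_mul_cancel₀ hne, one_smul] at this
    exact this
  rw [eq_top_iff]
  intro y _
  have : y = ∑ o : Option K, y.1 (rep o) • psRep μ (rep o)⁻¹ ⟨f1 μ, f1_mem μ⟩ := by
    apply Subtype.ext
    rw [AddSubmonoidClass.coe_finsetSum]
    exact PS_expand y.2
  rw [this]
  exact Submodule.sum_mem _ fun o _ => Submodule.smul_mem _ _ (hW _ _ hf1W)

/-- every nonzero finite-dimensional representation has an irreducible subrepresentation -/
theorem exists_irr_sub {G : Type} [Group G] (n : ℕ) : ∀ (V : Type) [AddCommGroup V] [Module k V]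
    [FiniteDimensional k V] [Nontrivial V] (ρ : Representation k G V), Module.finrank k V = n →
    ∃ (Y : IrrRep G k) (ι : Y.V →ₗ[k] V), Function.Injective ι ∧ ∀ g y, ι (Y.ρ g y) = ρ g (ι y) := by
  induction n using Nat.strong_induction_on with
  | _ n ih =>
    intro V _ _ _ _ ρ hn
    by_cases hr : ρ.IsIrreducible
    · exact ⟨⟨V, ρ, hr⟩, LinearMap.id, Function.injective_id, fun g y => rfl⟩
    · rw [irr_iff] at hr
      push Not at hr
      obtain ⟨W, hW, hbot, htop⟩ := hr inferInstance
      haveI : Nontrivial W := (Submodule.nontrivial_iff_ne_bot).2 hbot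
      let σ : Subrepresentation ρ := ⟨W, fun g x hx => hW g x hx⟩
      have hlt : Module.finrank k W < n := by
        rw [← hn]
        exact Submodule.finrank_lt htop
      obtain ⟨Y, ι, hι, hc⟩ := ih _ hlt W σ.toRepresentation rfl
      refine ⟨Y, W.subtype.comp ι, (Submodule.injective_subtype W).comp hι, ?_⟩
      intro g y
      have := congrArg (W.subtype) (hc g y)
      exact this

end Pool.Agent.P8H59.UT
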