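import Pool.Agent.P8H59.UT.PSRep

/-!
# The residue field, Brauer characters
-/

set_option autoImplicit false
set_option linter.all false

noncomputable section

namespace Pool.Agent.P8H59.UT

open Polynomial Representation

variable (M : Ideal AI) [hM : M.IsMaximal]

/-- a maximal ideal containing `ℓ` exists -/
theorem exists_maximal (ℓ : ℕ) (hℓ : ℓ.Prime) : ∃ M : Ideal AI, M.IsMaximal ∧ (ℓ : AI) ∈ M := by
  obtain ⟨M, hM, hle⟩ := Ideal.exists_le_maximal (Ideal.span {(ℓ : AI)}) (by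
    intro h
    rw [Ideal.span_singleton_eq_top] at h
    obtain ⟨z, hz⟩ := h.exists_right_inv
    have h1 : (ℓ : ℂ) * (z : ℂ) = 1 := by
      have := congrArg (fun y : AI => (y : ℂ)) hz
      simpa using this
    have h2 : IsIntegral ℤ (z : ℂ) := z.2
    have h3 : (z : ℂ) = (((ℓ : ℚ)⁻¹ : ℚ) : ℂ) := by
      push_cast
      exact eq_inv_of_mul_eq_one_right h1
    rw [h3] at h2
    obtain ⟨m, hm⟩ := int_of_integral h2
    have h4 : (ℓ : ℚ) * m = 1 := by
      rw [hm]
      exact mul_inv_cancel₀ (by exact_mod_cast hℓ.ne_zero)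
    have h5 : (ℓ : ℤ) * m = 1 := by exact_mod_cast h4
    have h6 : (ℓ : ℤ) ∣ 1 := ⟨m, h5.symm⟩
    have h7 : ℓ ∣ 1 := by exact_mod_cast h6
    exact hℓ.one_lt.ne' (Nat.dvd_one.1 h7))
  exact ⟨M, hM, hle (Ideal.subset_span rfl)⟩

/-- the residue field is algebraically closed -/
instance : IsAlgClosed (AI ⧸ M) := by
  apply IsAlgClosed.of_exists_root
  intro p hp hirr
  -- lift
  have hlift : p ∈ Polynomial.lifts (Ideal.Quotient.mk M) := by
    rw [Polynomial.lifts_iff_coeff_lifts]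
    intro n
    exact Ideal.Quotient.mk_surjective _
  obtain ⟨q, hq, hdeg, hmon⟩ := Polynomial.lifts_and_natDegree_eq_and_monic hlift hp
  have hdegp : p.natDegree ≠ 0 := hirr.natDegree_pos.ne'
  -- a root in `ℂ`
  have hq0 : (q.map (algebraMap AI ℂ)).degree ≠ 0 := by
    rw [Polynomial.degree_map_eq_of_injective (FaithfulSMul.algebraMap_injective AI ℂ)]
    intro h
    apply hdegp
    rw [← hdeg]
    exact Polynomial.natDegree_eq_of_degree_eq_some h
  obtain ⟨z, hz⟩ := IsAlgClosed.exists_root _ hq0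
  have hzint : IsIntegral AI z := ⟨q, hmon, by rwa [Polynomial.IsRoot, Polynomial.eval_map] at hz⟩
  have hzZ : IsIntegral ℤ z := isIntegral_trans (R := ℤ) (A := AI) z hzint
  let z' : AI := ⟨z, hzZ⟩
  have hz' : q.eval z' = 0 := by
    apply FaithfulSMul.algebraMap_injective AI ℂ
    rw [map_zero, ← Polynomial.eval₂_at_apply, ← Polynomial.eval_map]
    exact hz
  refine ⟨Ideal.Quotient.mk M z', ?_⟩
  rw [← hq, Polynomial.eval_map, Polynomial.eval₂_at_apply, hz', map_zero]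


variable {M} {ℓ : ℕ} [Fact ℓ.Prime] (hℓ : (ℓ : AI) ∈ M)

include hℓ in
theorem charP_quot : CharP (AI ⧸ M) ℓ := by
  have h0 : ((ℓ : ℕ) : AI ⧸ M) = 0 := by
    have := Ideal.Quotient.eq_zero_iff_mem.2 hℓ
    simpa using this
  obtain ⟨r, hr⟩ := CharP.exists (AI ⧸ M)
  have hdvd : r ∣ ℓ := (CharP.cast_eq_zero_iff (AI ⧸ M) r ℓ).1 h0
  rcases (Nat.dvd_prime (Fact.out : ℓ.Prime)).1 hdvd with h | h
  · subst h
    exact absurd rfl (CharP.char_ne_one (AI ⧸ M) 1)
  · subst h
    exact hr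

lemma AI_ne_zero {z : AI} {m : ℕ} (hm : ¬ ℓ ∣ m) (hz : z ^ m = 1) : m ≠ 0 := by
  rintro rfl
  exact hm (dvd_zero _)

include hℓ in
/-- roots of unity of order prime to `ℓ` with residue class `1` are trivial -/
theorem eq_one_of_mk {z : AI} {m : ℕ} (hm : ¬ ℓ ∣ m) (hz : z ^ m = 1)
    (h1 : Ideal.Quotient.mk M z = 1) : z = 1 := by
  haveI := charP_quot hℓ
  by_contra hne
  have hsum : ∑ i ∈ Finset.range m, z ^ i = 0 := by
    have := geom_sum_mul z m
    rw [hz, sub_self] at this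
    rcases mul_eq_zero.1 this with h | h
    · exact h
    · exact absurd (sub_eq_zero.1 h) hne
  have h2 := congrArg (Ideal.Quotient.mk M) hsum
  rw [map_sum, map_zero] at h2
  simp only [map_pow, h1, one_pow, Finset.sum_const, Finset.card_range, nsmul_eq_mul, mul_one] at h2
  exact hm ((CharP.cast_eq_zero_iff (AI ⧸ M) ℓ m).1 h2)

/-- a primitive root of unity in `AI` -/
lemma exists_primitive (m : ℕ) (hm : m ≠ 0) : ∃ z : AI, IsPrimitiveRoot z m := by
  have h1 := Complex.isPrimitiveRoot_exp m hm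
  have h2 : IsIntegral ℤ (Complex.exp (2 * Real.pi * Complex.I / m)) :=
    IsIntegral.of_pow (Nat.pos_of_ne_zero hm) (by rw [h1.pow_eq_one]; exact isIntegral_one)
  refine ⟨⟨_, h2⟩, ?_⟩
  exact IsPrimitiveRoot.of_map_of_injective (f := algebraMap AI ℂ) h1
    (FaithfulSMul.algebraMap_injective AI ℂ)

/-- lifts of roots of unity -/
theorem exists_lift {m : ℕ} (hm : m ≠ 0) {α : AI ⧸ M} (hα : α ^ m = 1) :
    ∃ z : AI, z ^ m = 1 ∧ Ideal.Quotient.mk M z = α := by
  classical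
  obtain ⟨ζ, hζ⟩ := exists_primitive m hm
  obtain ⟨a, rfl⟩ := Ideal.Quotient.mk_surjective α
  have h1 := X_pow_sub_one_eq_prod (Nat.pos_of_ne_zero hm) hζ
  have h2 := congrArg (fun p : AI[X] => Ideal.Quotient.mk M (p.eval a)) h1
  simp only [Polynomial.eval_sub, Polynomial.eval_pow, Polynomial.eval_X, Polynomial.eval_one,
    Polynomial.eval_prod, Polynomial.eval_C, map_sub, map_pow, map_one, hα, sub_self, map_prod] at h2
  obtain ⟨z, hz, hz0⟩ := Finset.prod_eq_zero_iff.1 h2.symm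
  refine ⟨z, ?_, (sub_eq_zero.1 hz0).symm⟩
  exact (Polynomial.mem_nthRootsFinset (Nat.pos_of_ne_zero hm) 1).1 hz

variable {G : Type} [Group G] [Fintype G]

/-- the Brauer character of an irreducible representation exists -/
theorem exists_brauer (Y : IrrRep G (AI ⧸ M)) : ∃ φ : Reg ℓ G → ℂ, IsBrauerChar M ℓ Y φ := by
  have key : ∀ g : Reg ℓ G, ∃ ζ : Fin (Module.finrank (AI ⧸ M) Y.V) → AI,
      (∀ i, ∃ m : ℕ, ¬ ℓ ∣ m ∧ ζ i ^ m = 1) ∧
      (Y.ρ g.1).charpoly = ∏ i, (X - C (Ideal.Quotient.mk M (ζ i))) := by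
    intro g
    have hm0 : orderOf g.1 ≠ 0 := fun h => g.2 (by rw [h]; exact dvd_zero _)
    have hpow : (Y.ρ g.1) ^ orderOf g.1 = 1 := by
      rw [← map_pow, pow_orderOf_eq_one, map_one]
    -- the roots
    have hsplit : (Y.ρ g.1).charpoly.Splits := IsAlgClosed.splits _
    have hcard : Multiset.card (Y.ρ g.1).charpoly.roots = Module.finrank (AI ⧸ M) Y.V := by
      rw [← LinearMap.charpoly_natDegree (Y.ρ g.1)]
      exact hsplit.natDegree_eq_card_roots.symm
    obtain ⟨L, hL⟩ := Quot.exists_rep (Y.ρ g.1).charpoly.roots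
    have hL' : (L : Multiset (AI ⧸ M)) = (Y.ρ g.1).charpoly.roots := hL
    have hlen : L.length = Module.finrank (AI ⧸ M) Y.V := by
      rw [← hcard, ← hL']; rfl
    have hroot : ∀ α ∈ L, α ^ orderOf g.1 = 1 := by
      intro α hα
      have hα' : α ∈ (Y.ρ g.1).charpoly.roots := by rw [← hL']; exact hα
      have hz' : Module.End.HasEigenvalue (Y.ρ g.1) α := by
        rw [Module.End.hasEigenvalue_iff_isRoot_charpoly]
        exact (Polynomial.mem_roots'.1 hα').2
      obtain ⟨v, hv⟩ := hz'.exists_hasEigenvector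
      have h1 : ((Y.ρ g.1) ^ orderOf g.1) v = α ^ orderOf g.1 • v := hv.pow_apply _
      rw [hpow, Module.End.one_apply] at h1
      have : (α ^ orderOf g.1 - 1) • v = 0 := by rw [sub_smul, one_smul, ← h1, sub_self]
      rcases smul_eq_zero.1 this with h3 | h3
      · exact sub_eq_zero.1 h3
      · exact absurd h3 hv.2
    have hl : ∀ i : Fin (Module.finrank (AI ⧸ M) Y.V), ∃ z : AI, z ^ orderOf g.1 = 1 ∧
        Ideal.Quotient.mk M z = L.get (Fin.cast hlen.symm i) := fun i =>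
      exists_lift hm0 (hroot _ (List.get_mem _ _))
    choose ζ hζ1 hζ2 using hl
    refine ⟨ζ, fun i => ⟨_, g.2, hζ1 i⟩, ?_⟩
    simp only [hζ2]
    rw [hsplit.eq_prod_roots_of_monic (LinearMap.charpoly_monic _)]
    rw [← hL', Multiset.map_coe, Multiset.prod_coe]
    rw [← Fin.prod_ofFn]
    congr 1
    apply List.ext_get
    · simp [hlen]
    · intro n h1 h2
      simp
  choose ζ h1 h2 using key
  exact ⟨fun g => ∑ i, (ζ g i : ℂ), fun g => ⟨ζ g, h1 g, h2 g, rfl⟩⟩

include hℓ in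
/-- the value of the Brauer character at `1` is the dimension -/
theorem brauer_one {Y : IrrRep G (AI ⧸ M)} {φ : Reg ℓ G → ℂ} (hφ : IsBrauerChar M ℓ Y φ)
    (h1 : ¬ ℓ ∣ orderOf (1 : G)) : φ ⟨1, h1⟩ = Module.finrank (AI ⧸ M) Y.V := by
  obtain ⟨ζ, hζ, hc, hs⟩ := hφ ⟨1, h1⟩
  have hz : ∀ i, ζ i = 1 := by
    intro i
    obtain ⟨m, hm, hzm⟩ := hζ i
    apply eq_one_of_mk hℓ hm hzm
    have h2 : ((Y.ρ 1).charpoly).IsRoot (Ideal.Quotient.mk M (ζ i)) := by
      rw [hc, Polynomial.IsRoot, Polynomial.eval_prod]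
      apply Finset.prod_eq_zero (Finset.mem_univ i)
      simp
    rw [← Module.End.hasEigenvalue_iff_isRoot_charpoly] at h2
    obtain ⟨v, hv⟩ := h2.exists_hasEigenvector
    have h3 := hv.apply_eq_smul
    rw [map_one, Module.End.one_apply] at h3
    have : (Ideal.Quotient.mk M (ζ i) - 1) • v = 0 := by rw [sub_smul, one_smul, ← h3, sub_self]
    rcases smul_eq_zero.1 this with h4 | h4
    · exact sub_eq_zero.1 h4
    · exact absurd h4 hv.2
  rw [hs]
  simp [hz]

end Pool.Agent.P8H59.UT
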